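import Mathlib
import Pool.Agent.Y947.DM.Opt
import Pool.Agent.Y947.DM.Fin

/-!
# Optimisation, all primes, general contractions
-/

set_option autoImplicit false

open Finset Polynomial Module Pool.Agent.H388SL Pool.Agent.Y947.DL Pool.Agent.Y947.DM

namespace Pool.Agent.Y947.DP

variable {K : Type*} [Field K] [NumberField K]

/-- the bound over a number field, from contractions of bounded energy -/
theorem field_main3 : ∃ c : ℝ, 0 < c ∧ ∀ (K : Type) [Field K] [NumberField K] (α : K), IsIntegral ℤ α →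
    α ≠ 0 → (∀ n : ℕ, 0 < n → α ^ n ≠ 1) → CInj α → (∏ σ : K →ₐ[ℚ] ℂ, ‖σ α‖ = 1) →
    (∀ p : ℕ, p.Prime → p ≠ 2 → Good α p) →
    ∀ B : ℝ, 1 ≤ B →
    (lam α ≤ 1 → ∀ κ : ℝ, 0 < κ → κ ≤ 1 → ∃ ε : (K →ₐ[ℚ] ℂ) → ℝ, (∀ σ, 0 < ε σ ∧ ε σ ≤ 1 / 2) ∧
      ∑ σ, ε σ ≤ κ * (63000000 * B) ∧
      EE α ε 1 1 ≤ finrank ℚ K * (2 * 10 ^ 9 * B * (1 + Real.log (1 / κ)))) →
    c / B ^ 3 ≤ lam α := by
  obtain ⟨Y0, hY01, hY0⟩ := exists_Y0
  set b0 : ℝ := max (10 ^ 80) Y0 with hb0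
  have hb80 : (10:ℝ) ^ 80 ≤ b0 := le_max_left _ _
  have hb48 : (10:ℝ) ^ 48 ≤ b0 := by
    refine le_trans ?_ hb80
    norm_num
  have hbY0 : (Y0:ℝ) ≤ b0 := le_max_right _ _
  have hb0pos : 0 < b0 := by linarith [show (0:ℝ) < 10 ^ 48 by positivity]
  refine ⟨10 ^ (-41 : ℤ) / b0, by positivity, ?_⟩
  intro K _ _ α hα h0 hroot hc hunit hgood B hB1 hcon
  classical
  have hlam0 := lam_nonneg α
  set G' := b0 * B ^ 2 with hG'
  have hb01 : 1 ≤ b0 := by
    refine le_trans ?_ hb48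
    norm_num
  have hB2 : 1 ≤ B ^ 2 := one_le_pow₀ hB1
  have hb0G' : b0 ≤ G' := by rw [hG']; nlinarith
  have hBG' : B ^ 2 ≤ G' := by rw [hG']; nlinarith
  have hG'1 : 1 ≤ G' := by linarith
  have hG'0 : 0 < G' := by linarith
  have hgoal : 10 ^ (-41 : ℤ) / b0 / B ^ 3 = 10 ^ (-41 : ℤ) / (B * G') := by
    rw [hG', div_div]
    congr 1
    ring
  rw [hgoal]
  by_cases hbig : 1 ≤ lam α
  · refine le_trans ?_ hbig
    rw [div_le_one (by positivity)]
    have h1 : (1:ℝ) ≤ B * G' := by nlinarith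
    refine le_trans ?_ h1
    norm_num
  push Not at hbig
  obtain ⟨ε, hε, hη1, hEE1⟩ := hcon hbig.le (1 / G' ^ 5) (by positivity) (by
    rw [div_le_one (by positivity)]; exact one_le_pow₀ hG'1)
  have hη : ∑ σ, ε σ ≤ 63000000 * B / G' ^ 5 := by
    refine hη1.trans (le_of_eq ?_)
    ring
  have hEE : EE α ε 1 1 ≤ finrank ℚ K * (10 ^ 10 * B * (1 + Real.log G')) := by
    refine hEE1.trans ?_
    apply mul_le_mul_of_nonneg_left _ (Nat.cast_nonneg _)
    have hlogG : 0 ≤ Real.log G' := Real.log_nonneg hG'1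
    rw [one_div_one_div, Real.log_pow]
    push_cast
    have h1 : 2 * 10 ^ 9 * B * (1 + 5 * Real.log G') ≤ 2 * 10 ^ 9 * B * (5 * (1 + Real.log G')) := by
      apply mul_le_mul_of_nonneg_left _ (by positivity)
      linarith
    refine h1.trans (le_of_eq ?_)
    ring
  set l := 1 + Real.log G' with hl
  set R := 10 ^ 10 * B * l with hR
  have hη0 : 0 ≤ ∑ σ, ε σ := Finset.sum_nonneg fun σ _ => (hε σ).1.le
  have hlpos : 0 < l := by
    have := Real.log_nonneg hG'1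
    linarith
  -- choice of Y
  set Y : ℕ := ⌈10 ^ 24 * G' * l⌉₊ with hYdef
  have hYge : 10 ^ 24 * G' * l ≤ Y := Nat.le_ceil _
  have hYle : (Y:ℝ) ≤ 10 ^ 24 * G' * l + 1 := (Nat.ceil_lt_add_one (by positivity)).le
  obtain ⟨hl1, hYb0, hY2', hlY, hlogY, hlR, hbadY⟩ := Y_facts hB1 hb48 hb0G' hl hR hYge hYle
  obtain ⟨hsmall, hYS⟩ := contraction_small hB1 hBG' (hb80.trans hb0G') hl hYle hη0 hη
  have hY2 : 2 ≤ Y := by exact_mod_cast hY2'
  have hY1' : (1:ℝ) ≤ Y := by linarith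
  have hY0Y : Y0 ≤ Y := by exact_mod_cast hbY0.trans hYb0
  have hY1 : 1 ≤ Y := by omega
  have hY8 : 8 ≤ Y := by
    have h8 : (8:ℝ) ≤ b0 := by
      refine le_trans ?_ hb48
      norm_num
    exact_mod_cast h8.trans hYb0
  set P := blk Y with hP
  have hlogY0 : 0 ≤ Real.log Y := Real.log_nonneg hY1'
  have hlogp : ∀ p ∈ P, Real.log p ≤ Real.log Y := by
    intro p hp
    have h1 := mem_blk.mp hp
    apply Real.log_le_log
    · exact_mod_cast h1.1.pos
    · exact_mod_cast h1.2.2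
  have hθ : (Y:ℝ) / 16 ≤ ∑ p ∈ P, Real.log p := by
    have h1 := blk_sum hY0 Y hY0Y hY1
    linarith
  have hPcard : (P.card : ℝ) ≤ Nat.primeCounting Y := by
    have h1 : P.card ≤ Nat.primeCounting Y := by
      rw [Nat.primeCounting, Nat.primeCounting', Nat.count_eq_card_filter_range]
      apply Finset.card_le_card
      intro p hp
      have h3 := mem_blk.mp hp
      rw [Finset.mem_filter, Finset.mem_range]
      exact ⟨by omega, h3.1⟩
    exact_mod_cast h1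
  have hqY : (P.card : ℝ) * Real.log Y ≤ 4 * Y :=
    (mul_le_mul_of_nonneg_right hPcard hlogY0).trans (pi_le_nat hY2)
  have hθq : ∑ p ∈ P, Real.log p ≤ P.card * Real.log Y := by
    rw [← nsmul_eq_mul]
    apply Finset.sum_le_card_nsmul
    intro p hp
    exact hlogp p hp
  have hPpos : (0:ℝ) < P.card := by
    by_contra hc
    push Not at hc
    have h1 : (P.card : ℝ) * Real.log Y ≤ 0 := mul_nonpos_of_nonpos_of_nonneg hc hlogY0
    have : (0:ℝ) < Y / 16 := by linarith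
    linarith
  have hs : ∑ p ∈ P, (p : ℝ) ≤ P.card * Y := by
    rw [← nsmul_eq_mul]
    apply Finset.sum_le_card_nsmul
    intro p hp
    exact_mod_cast (mem_blk.mp hp).2.2
  have hs0 : 0 ≤ ∑ p ∈ P, (p : ℝ) := Finset.sum_nonneg fun _ _ => Nat.cast_nonneg _
  have hRpos : 0 < R := by rw [hR]; positivity
  have hθ0 : 0 ≤ ∑ p ∈ P, Real.log p := by linarith
  have hmain := main_ineq2 hα h0 hroot hc (fun σ => (hε σ).1) hY1 hYS P
    (fun p hp => (mem_blk.mp hp).1)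
    (fun p hp => hgood p (mem_blk.mp hp).1 (by
      have := (mem_blk.mp hp).2.1
      omega))
    (fun p hp => (mem_blk.mp hp).2.2)
    (T := (∑ p ∈ P, Real.log p) / (2 * R)) (by positivity) hRpos.le hEE
  have hfin := final_real hB1 hBG' hl1 hR hYge hYle hlY hlR hθ hPpos hqY hθq hs hs0 rfl
    (by positivity : 0 ≤ lam α + 2 * (Y * ∑ σ, ε σ)) hmain
  have e3 : (10 ^ (-41 : ℤ) / (B * G') : ℝ) = (1 / 10) * (10 ^ (-40 : ℤ) / (B * G')) := by
    rw [← mul_div_assoc]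
    congr 1
    norm_num
  rw [e3]
  linarith

end Pool.Agent.Y947.DP
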