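import Mathlib

/-!
# Poisson integrals of continuous functions on a circle, and an obstacle problem
-/

set_option autoImplicit false

open Complex Metric Real Set

namespace Pool.Agent.Y947.DP

/-- Poisson integral over the circle of radius `R` -/
noncomputable def PI (R : ℝ) (φ : ℂ → ℝ) (w : ℂ) : ℝ :=
  circleAverage ((Complex.re ∘ herglotzRieszKernel 0 w) • φ) 0 R

/-- a holomorphic function with real part `PI` -/
noncomputable def CP (R : ℝ) (φ : ℂ → ℝ) (w : ℂ) : ℂ :=
  circleAverage (fun ζ ↦ herglotzRieszKernel 0 w ζ • (φ ζ : ℂ)) 0 R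

/-- continuity on the circle of radius `R` -/
def CS (R : ℝ) (φ : ℂ → ℝ) : Prop := ContinuousOn φ (sphere 0 |R|)

variable {R : ℝ} {φ ψ : ℂ → ℝ} {w : ℂ}

lemma CS.ci (h : CS R φ) : CircleIntegrable φ 0 R := ContinuousOn.circleIntegrable' h

lemma ker_cont (hw : w ∈ ball (0:ℂ) R) : CS R (Complex.re ∘ herglotzRieszKernel 0 w) :=
  Complex.continuous_re.comp_continuousOn (continuousOn_herglotzRieszKernel_sphere hw)

lemma CS.ker (h : CS R φ) (hw : w ∈ ball (0:ℂ) R) : CS R ((Complex.re ∘ herglotzRieszKernel 0 w) • φ) :=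
  ContinuousOn.smul (ker_cont hw) h

lemma CP_re (h : CS R φ) (hw : w ∈ ball (0:ℂ) R) : (CP R φ w).re = PI R φ w :=
  re_circleAverage_herglotzRieszKernel_smul h.ci hw

lemma CP_diff (h : CS R φ) : DifferentiableOn ℂ (CP R φ) (ball 0 R) := by
  apply differentiableOn_circleAverage_herglotzRieszKernel_smul
  apply ContinuousOn.circleIntegrable'
  exact Complex.continuous_ofReal.comp_continuousOn h

lemma ker_nonneg {ζ : ℂ} (hζ : ζ ∈ sphere (0:ℂ) |R|) (hw : w ∈ ball (0:ℂ) R) :
    0 ≤ (Complex.re ∘ herglotzRieszKernel 0 w) ζ := by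
  have hR : 0 < R := pos_of_mem_ball hw
  rw [abs_of_pos hR] at hζ
  have h := le_re_herglotzRieszKernel hζ hw
  rw [mem_ball_zero_iff] at hw
  refine le_trans ?_ h
  rw [sub_zero]
  apply div_nonneg <;> linarith [norm_nonneg w]

lemma ker_le {ζ : ℂ} (hζ : ζ ∈ sphere (0:ℂ) |R|) (hw : w ∈ ball (0:ℂ) R) :
    (Complex.re ∘ herglotzRieszKernel 0 w) ζ ≤ (R + ‖w‖) / (R - ‖w‖) := by
  have hR : 0 < R := pos_of_mem_ball hw
  rw [abs_of_pos hR] at hζ
  have h := re_herglotzRieszKernel_le hζ hw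
  rw [Function.comp_apply, herglotzRieszKernel_def]
  simpa using h

lemma PI_mono (hφ : CS R φ) (hψ : CS R ψ) (hw : w ∈ ball (0:ℂ) R)
    (h : ∀ ζ ∈ sphere (0:ℂ) |R|, φ ζ ≤ ψ ζ) : PI R φ w ≤ PI R ψ w := by
  apply circleAverage_mono (hφ.ker hw).ci (hψ.ker hw).ci
  intro ζ hζ
  exact mul_le_mul_of_nonneg_left (h ζ hζ) (ker_nonneg hζ hw)

lemma PI_re {F : ℂ → ℂ} (hF : DiffContOnCl ℂ F (ball 0 R)) (hw : w ∈ ball (0:ℂ) R) :
    PI R (fun z => (F z).re) w = (F w).re := by
  have hR : 0 < R := pos_of_mem_ball hw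
  have h1 := hF.circleAverage_re_herglotzRieszKernel_smul hw
  rw [← h1]
  have hFc : ContinuousOn F (sphere (0:ℂ) |R|) := by
    apply hF.continuousOn.mono
    rw [closure_ball _ hR.ne', abs_of_pos hR]
    exact sphere_subset_closedBall
  have hci : CircleIntegrable ((Complex.re ∘ herglotzRieszKernel 0 w) • F) 0 R := by
    apply ContinuousOn.circleIntegrable'
    exact ContinuousOn.smul (ker_cont hw) hFc
  have h2 := Complex.reCLM.circleAverage_comp_comm hci
  have h3 : (circleAverage ((Complex.re ∘ herglotzRieszKernel 0 w) • F) 0 R).re =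
    Complex.reCLM (circleAverage ((Complex.re ∘ herglotzRieszKernel 0 w) • F) 0 R) := rfl
  rw [h3, ← h2]
  unfold PI
  congr 1
  ext z
  simp [Pi.smul_apply']

lemma PI_const (c : ℝ) (hw : w ∈ ball (0:ℂ) R) : PI R (fun _ => c) w = c := by
  have h := PI_re (F := fun _ => (c : ℂ)) (R := R) (w := w) (diffContOnCl_const) hw
  simpa using h

lemma PI_add (hφ : CS R φ) (hψ : CS R ψ) (hw : w ∈ ball (0:ℂ) R) :
    PI R (fun z => φ z + ψ z) w = PI R φ w + PI R ψ w := by
  unfold PI
  rw [← circleAverage_add (hφ.ker hw).ci (hψ.ker hw).ci]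
  congr 1
  ext z
  simp [Pi.smul_apply', mul_add]

lemma PI_mul_left (c : ℝ) : PI R (fun z => c * φ z) w = c * PI R φ w := by
  unfold PI
  rw [← smul_eq_mul, ← circleAverage_smul]
  congr 1
  ext z
  simp [Pi.smul_apply', mul_left_comm]

lemma CS_const (c : ℝ) : CS R (fun _ => c) := continuousOn_const

lemma CS.add (hφ : CS R φ) (hψ : CS R ψ) : CS R (fun z => φ z + ψ z) := ContinuousOn.add hφ hψ

lemma CS.mul (hφ : CS R φ) (hψ : CS R ψ) : CS R (fun z => φ z * ψ z) := ContinuousOn.mul hφ hψ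

lemma PI_sub_const (hφ : CS R φ) (c : ℝ) (hw : w ∈ ball (0:ℂ) R) :
    PI R (fun z => φ z - c) w = PI R φ w - c := by
  have h := PI_add hφ (CS_const (R := R) (-c)) hw
  rw [PI_const _ hw] at h
  simpa [sub_eq_add_neg] using h

lemma PI_nonneg (hφ : CS R φ) (hw : w ∈ ball (0:ℂ) R) (h : ∀ ζ ∈ sphere (0:ℂ) |R|, 0 ≤ φ ζ) :
    0 ≤ PI R φ w := by
  have := PI_mono (CS_const (R := R) 0) hφ hw h
  rwa [PI_const _ hw] at this

lemma ker_zero {ζ : ℂ} (hR : 0 < R) (hζ : ζ ∈ sphere (0:ℂ) |R|) :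
    (Complex.re ∘ herglotzRieszKernel 0 0) ζ = 1 := by
  have hζ0 : ζ ≠ 0 := by
    rintro rfl
    rw [mem_sphere, dist_self, abs_of_pos hR] at hζ
    linarith
  rw [Function.comp_apply, herglotzRieszKernel_def]
  simp [hζ0]

lemma PI_zero (hR : 0 < R) : PI R φ 0 = circleAverage φ 0 R := by
  unfold PI
  apply circleAverage_congr_sphere
  intro ζ hζ
  rw [Pi.smul_apply', ker_zero hR hζ, one_smul]

/-- dilation keeps the circle inside -/
lemma dil_mem {s : ℝ} (hs0 : 0 ≤ s) (hs1 : s < 1) (hR : 0 < R) {ζ : ℂ} (hζ : ζ ∈ closedBall (0:ℂ) R) :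
    (s : ℂ) * ζ ∈ ball (0:ℂ) R := by
  rw [mem_closedBall_zero_iff] at hζ
  rw [mem_ball_zero_iff, norm_mul, Complex.norm_real, Real.norm_of_nonneg hs0]
  nlinarith [norm_nonneg ζ]

lemma dil_diff {s : ℝ} (hs0 : 0 ≤ s) (hs1 : s < 1) (hR : 0 < R) (h : CS R φ) :
    DiffContOnCl ℂ (fun z => CP R φ ((s : ℂ) * z)) (ball 0 R) := by
  apply DifferentiableOn.diffContOnCl
  rw [closure_ball _ hR.ne']
  apply (CP_diff h).comp (by fun_prop)
  intro z hz
  exact dil_mem hs0 hs1 hR hz

lemma sphere_mem (hR : 0 < R) {ζ : ℂ} (hζ : ζ ∈ sphere (0:ℂ) |R|) : ζ ∈ closedBall (0:ℂ) R := by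
  rw [abs_of_pos hR] at hζ
  exact sphere_subset_closedBall hζ

lemma CS_dil {s : ℝ} (hs0 : 0 ≤ s) (hs1 : s < 1) (hR : 0 < R) (h : CS R φ) :
    CS R (fun z => PI R φ ((s : ℂ) * z)) := by
  have h1 : ContinuousOn (fun z => (CP R φ ((s : ℂ) * z)).re) (sphere (0:ℂ) |R|) := by
    apply Complex.continuous_re.comp_continuousOn
    apply (dil_diff hs0 hs1 hR h).continuousOn.mono
    rw [closure_ball _ hR.ne']
    exact fun z hz => sphere_mem hR hz
  apply h1.congr
  intro z hz
  exact (CP_re h (dil_mem hs0 hs1 hR (sphere_mem hR hz))).symm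

/-- semigroup property -/
lemma PI_dil {s : ℝ} (hs0 : 0 ≤ s) (hs1 : s < 1) (h : CS R φ) (hw : w ∈ ball (0:ℂ) R) :
    PI R (fun z => PI R φ ((s : ℂ) * z)) w = PI R φ ((s : ℂ) * w) := by
  have hR : 0 < R := pos_of_mem_ball hw
  rw [← CP_re h (dil_mem hs0 hs1 hR (ball_subset_closedBall hw)), ← PI_re (dil_diff hs0 hs1 hR h) hw]
  unfold PI
  apply circleAverage_congr_sphere
  intro ζ hζ
  rw [Pi.smul_apply', Pi.smul_apply', CP_re h (dil_mem hs0 hs1 hR (sphere_mem hR hζ))]
  rfl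

/-- the energy inequality -/
lemma energy {s : ℝ} (hs0 : 0 ≤ s) (hs1 : s < 1) (hR : 0 < R) (h : CS R φ) :
    circleAverage (fun z => φ z * PI R φ ((s : ℂ) * z)) 0 R ≤ circleAverage (fun z => φ z * φ z) 0 R := by
  have hsq := h.mul h
  have hd := CS_dil hs0 hs1 hR hsq
  have h1 : circleAverage (fun z => φ z * PI R φ ((s : ℂ) * z)) 0 R ≤
      circleAverage (fun z => 1 / 2 * PI R (fun z => φ z * φ z) ((s : ℂ) * z) +
        1 / 2 * (φ z * φ z)) 0 R := by
    apply circleAverage_mono (h.mul (CS_dil hs0 hs1 hR h)).ci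
      (((CS_const (1/2)).mul hd).add ((CS_const (1/2)).mul hsq)).ci
    intro z hz
    have hz' := dil_mem hs0 hs1 hR (sphere_mem hR hz)
    have e0 : φ z * PI R φ ((s : ℂ) * z) = PI R (fun x => φ z * φ x) ((s : ℂ) * z) := (PI_mul_left _).symm
    have h2 : CS R (fun x => 1 / 2 * (φ x * φ x) + 1 / 2 * (φ z * φ z)) :=
      ((CS_const (1/2)).mul hsq).add (CS_const _)
    have h3 := PI_mono ((CS_const (R := R) (φ z)).mul h) h2 hz' (by
      intro ζ _
      nlinarith [sq_nonneg (φ z - φ ζ)])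
    rw [PI_add ((CS_const (1/2)).mul hsq) (CS_const _) hz', PI_const _ hz', PI_mul_left (φ := fun z => φ z * φ z), ← e0] at h3
    exact h3
  refine h1.trans (le_of_eq ?_)
  rw [circleAverage_fun_add ((CS_const (1/2)).mul hd).ci ((CS_const (1/2)).mul hsq).ci]
  have h4 : circleAverage (fun z => 1 / 2 * PI R (fun z => φ z * φ z) ((s : ℂ) * z)) 0 R =
      1 / 2 * circleAverage (fun z => φ z * φ z) 0 R := by
    have h5 := circleAverage_fun_smul (a := (1/2 : ℝ)) (f := fun z => PI R (fun z => φ z * φ z) ((s : ℂ) * z))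
      (c := 0) (R := R)
    simp only [smul_eq_mul] at h5
    rw [h5, ← PI_zero hR, PI_dil hs0 hs1 hsq (mem_ball_self hR), mul_zero, PI_zero hR]
  have h6 : circleAverage (fun z => 1 / 2 * (φ z * φ z)) 0 R =
      1 / 2 * circleAverage (fun z => φ z * φ z) 0 R := by
    have h5 := circleAverage_fun_smul (a := (1/2 : ℝ)) (f := fun z => φ z * φ z) (c := 0) (R := R)
    simp only [smul_eq_mul] at h5
    exact h5
  rw [h4, h6]
  ring

/-! ### Value iteration -/

/-- value iteration -/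
noncomputable def Vk (R s η : ℝ) (g : ℂ → ℝ) : ℕ → ℂ → ℝ
  | 0 => g
  | k + 1 => fun z => max (g z) (PI R (Vk R s η g k) ((s : ℂ) * z) - η)

section

variable {s η : ℝ} {g : ℂ → ℝ} (hs0 : 0 ≤ s) (hs1 : s < 1) (hR : 0 < R) (hg : CS R g)

include hs0 hs1 hR hg

lemma Vk_cont (k : ℕ) : CS R (Vk R s η g k) := by
  induction k with
  | zero => exact hg
  | succ k ih =>
    apply ContinuousOn.sup hg
    exact (CS_dil hs0 hs1 hR ih).sub continuousOn_const

lemma Vk_mono (k : ℕ) : ∀ ζ ∈ sphere (0:ℂ) |R|, Vk R s η g k ζ ≤ Vk R s η g (k + 1) ζ := by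
  induction k with
  | zero =>
    intro ζ _
    exact le_max_left _ _
  | succ k ih =>
    intro ζ hζ
    apply max_le_max le_rfl
    apply sub_le_sub_right
    exact PI_mono (Vk_cont hs0 hs1 hR hg k) (Vk_cont hs0 hs1 hR hg (k + 1))
      (dil_mem hs0 hs1 hR (sphere_mem hR hζ)) ih

lemma Vk_le (hη : 0 ≤ η) {M : ℝ} (hM : ∀ ζ ∈ sphere (0:ℂ) |R|, g ζ ≤ M) (k : ℕ) :
    ∀ ζ ∈ sphere (0:ℂ) |R|, Vk R s η g k ζ ≤ M := by
  induction k with
  | zero => exact hM
  | succ k ih =>
    intro ζ hζ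
    apply max_le (hM ζ hζ)
    have hz := dil_mem hs0 hs1 hR (sphere_mem hR hζ)
    have h1 := PI_mono (Vk_cont hs0 hs1 hR hg k) (CS_const (R := R) M) hz ih
    rw [PI_const _ hz] at h1
    linarith

lemma g_le_Vk (k : ℕ) : ∀ ζ ∈ sphere (0:ℂ) |R|, g ζ ≤ Vk R s η g k ζ := by
  intro ζ _
  cases k with
  | zero => exact le_rfl
  | succ k => exact le_max_left _ _

/-- approximate solution of the obstacle problem -/
theorem obstacle (hη : 0 < η) (hg0 : ∀ ζ ∈ sphere (0:ℂ) |R|, 0 ≤ g ζ)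
    (hgs : ∀ ζ ∈ sphere (0:ℂ) |R|, 0 < g ζ → g ζ - PI R g ((s : ℂ) * ζ) ≤ η) :
    ∃ V : ℂ → ℝ, CS R V ∧ (∀ ζ ∈ sphere (0:ℂ) |R|, g ζ ≤ V ζ) ∧
      (∀ ζ ∈ sphere (0:ℂ) |R|, PI R V ((s : ℂ) * ζ) - 2 * η ≤ V ζ) ∧
      circleAverage V 0 R ≤ 2 * circleAverage g 0 R := by
  -- an upper bound for `g`
  obtain ⟨M, hM⟩ : ∃ M, ∀ ζ ∈ sphere (0:ℂ) |R|, g ζ ≤ M := by
    have hc : IsCompact (sphere (0:ℂ) |R|) := isCompact_sphere _ _
    obtain ⟨M, hM⟩ := hc.bddAbove_image hg
    exact ⟨M, fun ζ hζ => hM (Set.mem_image_of_mem _ hζ)⟩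
  set a : ℕ → ℝ := fun k => circleAverage (Vk R s η g k) 0 R with ha
  have hcont := Vk_cont (η := η) hs0 hs1 hR hg
  have haM : ∀ k, a k ≤ M := fun k =>
    circleAverage_mono_on_of_le_circle (hcont k).ci (Vk_le hs0 hs1 hR hg hη.le hM k)
  have ha0 : ∀ k, 0 ≤ a k := fun k => by
    apply circleAverage_nonneg_of_nonneg
    intro ζ hζ
    exact (hg0 ζ hζ).trans (g_le_Vk hs0 hs1 hR hg k ζ hζ)
  have hs1' : 0 < 1 - s := by linarith
  set δ := η * (1 - s) / 2 with hδ
  have hδ0 : 0 < δ := by positivity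
  obtain ⟨k, hk⟩ : ∃ k, a (k + 1) - a k ≤ δ := by
    by_contra hcon
    push Not at hcon
    have h1 : ∀ k : ℕ, (k : ℝ) * δ ≤ a k := by
      intro k
      induction k with
      | zero => simpa using ha0 0
      | succ k ih =>
        have := hcon k
        push_cast
        linarith
    obtain ⟨k, hk⟩ := exists_nat_gt (M / δ)
    rw [div_lt_iff₀ hδ0] at hk
    linarith [h1 k, haM k]
  refine ⟨Vk R s η g (k + 1), hcont _, g_le_Vk hs0 hs1 hR hg _, ?_, ?_⟩
  · intro ζ hζ
    have hz := dil_mem hs0 hs1 hR (sphere_mem hR hζ)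
    have h1 : PI R (Vk R s η g k) ((s : ℂ) * ζ) - η ≤ Vk R s η g (k + 1) ζ := le_max_right _ _
    have h2 : PI R (Vk R s η g (k + 1)) ((s : ℂ) * ζ) ≤ PI R (Vk R s η g k) ((s : ℂ) * ζ) + η := by
      have hzn : ‖(s : ℂ) * ζ‖ = s * R := by
        rw [norm_mul, Complex.norm_real, Real.norm_of_nonneg hs0]
        rw [mem_sphere_zero_iff_norm, abs_of_pos hR] at hζ
        rw [hζ]
      have h3 : PI R (Vk R s η g (k + 1)) ((s : ℂ) * ζ) - PI R (Vk R s η g k) ((s : ℂ) * ζ) ≤
          (2 / (1 - s)) * (a (k + 1) - a k) := by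
        unfold PI
        rw [← circleAverage_sub ((hcont (k + 1)).ker hz).ci ((hcont k).ker hz).ci]
        have e : (2 / (1 - s)) * (a (k + 1) - a k) =
            circleAverage ((2 / (1 - s)) • (Vk R s η g (k + 1) - Vk R s η g k)) 0 R := by
          rw [circleAverage_smul, circleAverage_sub (hcont (k + 1)).ci (hcont k).ci]
          rfl
        rw [e]
        apply circleAverage_mono
        · exact (((hcont (k + 1)).ker hz).ci).sub (((hcont k).ker hz).ci)
        · exact ContinuousOn.circleIntegrable' (continuousOn_const.smul ((hcont (k + 1)).sub (hcont k)))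
        · intro x hx
          have h4 := ker_le hx hz
          have h5 := Vk_mono (η := η) hs0 hs1 hR hg k x hx
          simp only [Pi.sub_apply, Pi.smul_apply, Pi.mul_apply, smul_eq_mul]
          rw [← mul_sub]
          apply mul_le_mul_of_nonneg_right _ (by linarith)
          refine h4.trans ?_
          rw [hzn, div_le_div_iff₀ (by nlinarith) hs1']
          nlinarith [mul_nonneg (mul_nonneg hR.le hs1'.le) hs1'.le]
      have h6 : (2 / (1 - s)) * (a (k + 1) - a k) ≤ η := by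
        calc (2 / (1 - s)) * (a (k + 1) - a k) ≤ (2 / (1 - s)) * δ := by
              apply mul_le_mul_of_nonneg_left hk (by positivity)
          _ = η := by rw [hδ]; field_simp
      linarith
    linarith
  · -- the energy estimate
    set V := Vk R s η g (k + 1) with hV
    have hVc : CS R V := hcont _
    have hdil := CS_dil hs0 hs1 hR hVc
    have h1 := energy hs0 hs1 hR hVc
    have h2 : circleAverage (fun z => V z * V z) 0 R - circleAverage (fun z => V z * PI R V ((s : ℂ) * z)) 0 R ≤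
        circleAverage (fun z => η * (2 * g z - V z)) 0 R := by
      rw [← circleAverage_fun_sub (hVc.mul hVc).ci (hVc.mul hdil).ci]
      apply circleAverage_mono
      · exact ((hVc.mul hVc).ci).sub ((hVc.mul hdil).ci)
      · apply ContinuousOn.circleIntegrable'
        exact continuousOn_const.mul ((continuousOn_const.mul hg).sub hVc)
      · intro ζ hζ
        have hz := dil_mem hs0 hs1 hR (sphere_mem hR hζ)
        have hgV : g ζ ≤ V ζ := g_le_Vk hs0 hs1 hR hg _ ζ hζ
        have hg0' := hg0 ζ hζ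
        rw [← mul_sub]
        rcases lt_or_eq_of_le hgV with hlt | heq
        · have h3 : V ζ = PI R (Vk R s η g k) ((s : ℂ) * ζ) - η := by
            have h4 : V ζ = max (g ζ) (PI R (Vk R s η g k) ((s : ℂ) * ζ) - η) := rfl
            rcases max_choice (g ζ) (PI R (Vk R s η g k) ((s : ℂ) * ζ) - η) with h5 | h5
            · rw [h5] at h4; linarith
            · rw [h5] at h4; exact h4
          have h4 : PI R (Vk R s η g k) ((s : ℂ) * ζ) ≤ PI R V ((s : ℂ) * ζ) :=
            PI_mono (hcont k) hVc hz (Vk_mono hs0 hs1 hR hg k)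
          have h5 : V ζ - PI R V ((s : ℂ) * ζ) ≤ -η := by linarith
          have h6 : 0 ≤ V ζ := hg0'.trans hgV
          have h7 := mul_le_mul_of_nonneg_left h5 h6
          have h8 : 0 ≤ η * g ζ := by positivity
          nlinarith
        · rw [← heq]
          rcases lt_or_eq_of_le hg0' with h0 | h0
          · have h3 := hgs ζ hζ h0
            have h4 : PI R g ((s : ℂ) * ζ) ≤ PI R V ((s : ℂ) * ζ) :=
              PI_mono hg hVc hz (g_le_Vk hs0 hs1 hR hg _)
            have h5 : g ζ - PI R V ((s : ℂ) * ζ) ≤ η := by linarith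
            have h7 := mul_le_mul_of_nonneg_left h5 h0.le
            nlinarith
          · rw [← h0]
            simp
    have h3 : circleAverage (fun z => η * (2 * g z - V z)) 0 R =
        η * (2 * circleAverage g 0 R - circleAverage V 0 R) := by
      have h4 := circleAverage_fun_smul (a := η) (f := fun z => 2 * g z - V z) (c := 0) (R := R)
      simp only [smul_eq_mul] at h4
      rw [h4]
      congr 1
      have h5 : CS R (fun z => 2 * g z) := continuousOn_const.mul hg
      rw [circleAverage_fun_sub h5.ci hVc.ci]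
      congr 1
      have h6 := circleAverage_fun_smul (a := (2:ℝ)) (f := g) (c := 0) (R := R)
      simp only [smul_eq_mul] at h6
      exact h6
    rw [h3] at h2
    have h4 : 0 ≤ η * (2 * circleAverage g 0 R - circleAverage V 0 R) := by linarith
    have h5 : 0 ≤ 2 * circleAverage g 0 R - circleAverage V 0 R := by
      by_contra hc
      push Not at hc
      have := mul_neg_of_pos_of_neg hη hc
      linarith
    linarith

end

end Pool.Agent.Y947.DP
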