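import Mathlib
import Pool.Agent.Y947.DL.Grid
import Pool.Agent.Y947.DP.Pois

/-!
# A positive harmonic function that dominates the potential and its gradient
-/

set_option autoImplicit false

open Complex Metric Finset Polynomial Pool.Agent.Y947.DL

namespace Pool.Agent.Y947.DP

variable {ι : Type*} [Fintype ι]

/-- the properties of the dominating function -/
structure Dom (b : ι → ℂ) (n : ℝ) (H : ℂ → ℝ) : Prop where
  hb : ∀ j, ‖b j‖ ≤ 1
  one : ∀ x : ℂ, ‖x‖ ≤ 1 - 1 / (2 * n) → 1 ≤ H x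
  U_le : ∀ x : ℂ, ‖x‖ ≤ 1 - 1 / (2 * n) → HH 0 b x ≤ H x
  harn : ∀ x y : ℂ, ‖x‖ ≤ 1 - 1 / (2 * n) → ‖y - x‖ ≤ 7 / 16 * (1 - ‖x‖) → H y ≤ 3 * H x
  sumP : ∀ x : ℂ, ‖x‖ ≤ 1 - 1 / (2 * n) →
    ∑ j, (1 - ‖x * starRingEnd ℂ (b j)‖ ^ 2) / ‖1 - x * starRingEnd ℂ (b j)‖ ^ 2 ≤
      n + 10 * H x / (1 - ‖x‖)
  mono : ∀ e : ℂ, ‖e‖ ≤ 1 → ∀ r ρ : ℝ, 1 / (2 * n) ≤ r → r ≤ ρ → ρ ≤ 1 / 2 →
    H (((1 - ρ : ℝ) : ℂ) * e) ≤ 5 * H (((1 - r : ℝ) : ℂ) * e) + 25 * n * ρ
  cont : ContinuousOn H (closedBall 0 (1 - 1 / (2 * n)))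
  grid : ∀ N : ℕ, 0 < N → 2 * Real.pi * (1 : ℕ) / N ≤ 7 / (32 * n) →
    ∑ ζ ∈ nthRootsFinset N (1:ℂ), H (((1 - 1 / (2 * n) : ℝ) : ℂ) * ζ) ≤ 3 * N * H 0

/-- the positive part of the logarithm of the polynomial -/
noncomputable def gg (b : ι → ℂ) (x : ℂ) : ℝ := max 0 (-HH 0 b x)

lemma HH_cont {b : ι → ℂ} (hb : ∀ j, ‖b j‖ ≤ 1) : ContinuousOn (HH 0 b) (ball 0 1) := by
  have h1 : ContinuousOn (fun x => (hh 0 b x).re) (ball 0 1) :=
    Complex.continuous_re.comp_continuousOn (hh_diff 0 hb).continuousOn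
  apply h1.congr
  intro x _
  exact (hh_re 0 b x).symm

section

variable {b : ι → ℂ} (hb : ∀ j, ‖b j‖ ≤ 1) {R : ℝ} (hR0 : 0 < R) (hR1 : R < 1)

include hb hR0 hR1

lemma HH_CS : CS R (HH 0 b) := by
  apply (HH_cont hb).mono
  intro x hx
  rw [mem_sphere_zero_iff_norm, abs_of_pos hR0] at hx
  rw [mem_ball_zero_iff, hx]
  exact hR1

lemma gg_CS : CS R (gg b) := ContinuousOn.sup continuousOn_const (HH_CS hb hR0 hR1).neg

lemma PI_HH {w : ℂ} (hw : w ∈ ball (0:ℂ) R) : PI R (fun z => -HH 0 b z) w = -HH 0 b w := by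
  have hF : DiffContOnCl ℂ (fun z => -hh 0 b z) (ball 0 R) := by
    apply DifferentiableOn.diffContOnCl
    rw [closure_ball _ hR0.ne']
    apply ((hh_diff 0 hb).neg).mono
    exact closedBall_subset_ball hR1
  have h := PI_re hF hw
  simp only [Complex.neg_re, hh_re] at h
  exact h

lemma gg_step {s : ℝ} (hs0 : 0 ≤ s) (hs1 : s < 1) {ζ : ℂ} (hζ : ζ ∈ sphere (0:ℂ) |R|)
    (hpos : 0 < gg b ζ) : gg b ζ - PI R (gg b) ((s : ℂ) * ζ) ≤ Fintype.card ι * (1 - s) := by
  have hz := dil_mem hs0 hs1 hR0 (sphere_mem hR0 hζ)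
  have h1 : gg b ζ = -HH 0 b ζ := by
    unfold gg at hpos ⊢
    rcases max_choice 0 (-HH 0 b ζ) with h | h
    · rw [h] at hpos; exact absurd hpos (lt_irrefl _)
    · exact h
  have h2 : PI R (fun z => -HH 0 b z) ((s : ℂ) * ζ) ≤ PI R (gg b) ((s : ℂ) * ζ) := by
    apply PI_mono (HH_CS hb hR0 hR1).neg (gg_CS hb hR0 hR1) hz
    intro x _
    exact le_max_right _ _
  rw [PI_HH hb hR0 hR1 hz] at h2
  rw [mem_sphere_zero_iff_norm, abs_of_pos hR0] at hζ
  have hRc : (R : ℂ) ≠ 0 := by exact_mod_cast hR0.ne'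
  have h3 := HH_mono 0 hb (s := s * R) (s' := R) (by positivity) (by nlinarith) hR1
    (e := ζ / R) (by rw [norm_div, Complex.norm_real, Real.norm_of_nonneg hR0.le, hζ, div_self hR0.ne'])
  have e1 : ((s * R : ℝ) : ℂ) * (ζ / R) = s * ζ := by push_cast; field_simp
  have e2 : (R : ℂ) * (ζ / R) = ζ := by field_simp
  rw [e1, e2] at h3
  have h4 : (Fintype.card ι : ℝ) * (R - s * R) ≤ Fintype.card ι * (1 - s) := by
    apply mul_le_mul_of_nonneg_left _ (Nat.cast_nonneg _)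
    nlinarith
  rw [h1]
  linarith

end

/-- existence of the dominating function -/
theorem exists_dom {b : ι → ℂ} (hb : ∀ j, ‖b j‖ ≤ 1) (hn : 0 < Fintype.card ι) :
    ∃ H : ℂ → ℝ, Dom b (Fintype.card ι) H ∧
      H 0 ≤ 1 + 4 * Real.circleAverage (gg b) 0 (1 - 1 / (16 * (Fintype.card ι : ℝ))) := by
  classical
  set n : ℝ := (Fintype.card ι : ℝ) with hndef
  have hn1 : 1 ≤ n := by rw [hndef]; exact_mod_cast hn
  have hn0 : 0 < n := by linarith
  set h : ℝ := 1 / (16 * n) with hh0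
  have hhpos : 0 < h := by positivity
  have hh16 : h ≤ 1 / 16 := by
    rw [hh0]; apply one_div_le_one_div_of_le (by norm_num); linarith
  have hnh : n * h = 1 / 16 := by rw [hh0]; field_simp
  have h2n : 1 / (2 * n) = 8 * h := by rw [hh0]; field_simp; norm_num
  set R : ℝ := 1 - h with hR
  have hR0 : 0 < R := by linarith
  have hR1 : R < 1 := by linarith
  have hs0 : 0 ≤ R := hR0.le
  obtain ⟨V, hVc, hgV, hVs, hVavg⟩ := obstacle (s := R) (η := n * (1 - R)) hs0 hR1 hR0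
    (gg_CS hb hR0 hR1) (by rw [hR]; nlinarith) (fun ζ _ => le_max_left _ _)
    (fun ζ hζ hpos => gg_step hb hR0 hR1 hs0 hR1 hζ hpos)
  have h1R : 1 - R = h := by rw [hR]; ring
  rw [h1R, hnh] at hVs
  have hV0 : ∀ ζ ∈ sphere (0:ℂ) |R|, 0 ≤ V ζ := fun ζ hζ => (le_max_left _ _).trans (hgV ζ hζ)
  have hW0 : ∀ x ∈ ball (0:ℂ) R, 0 ≤ PI R V x := fun x hx => PI_nonneg hVc hx hV0
  have hUW : ∀ x ∈ ball (0:ℂ) R, 0 ≤ HH 0 b x + PI R V x := by
    intro x hx
    have h1 := PI_mono (HH_CS hb hR0 hR1).neg hVc hx (fun ζ hζ => (le_max_right _ _).trans (hgV ζ hζ))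
    have h2 := PI_HH hb hR0 hR1 hx
    have h3 : PI R (-HH 0 b) x = PI R (fun z => -HH 0 b z) x := rfl
    rw [h3, h2] at h1
    linarith
  set H : ℂ → ℝ := fun x => 1 + HH 0 b x + 2 * PI R V x with hHdef
  have hball : ∀ x : ℂ, ‖x‖ ≤ 1 - 1 / (2 * n) → x ∈ ball (0:ℂ) R := by
    intro x hx
    rw [mem_ball_zero_iff]
    rw [h2n] at hx
    linarith
  have hgap : ∀ x : ℂ, ‖x‖ ≤ 1 - 1 / (2 * n) → 7 / 8 * (1 - ‖x‖) ≤ R - ‖x‖ := by
    intro x hx
    rw [h2n] at hx
    linarith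
  -- holomorphic functions
  have hHdiff : DifferentiableOn ℂ (hh 0 b) (ball 0 R) :=
    (hh_diff 0 hb).mono (ball_subset_ball hR1.le)
  have hCdiff := CP_diff hVc
  set h2 : ℂ → ℂ := fun x => 1 + hh 0 b x + 2 * CP R V x with hh2
  set ha : ℂ → ℂ := fun x => 1 + hh 0 b x + CP R V x with hha
  set hc : ℂ → ℂ := fun x => 1 + CP R V x with hhc
  have hh2d : DifferentiableOn ℂ h2 (ball 0 R) := (hHdiff.const_add 1).add (hCdiff.const_mul 2)
  have hhad : DifferentiableOn ℂ ha (ball 0 R) := (hHdiff.const_add 1).add hCdiff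
  have hhcd : DifferentiableOn ℂ hc (ball 0 R) := hCdiff.const_add 1
  have hh2re : ∀ x ∈ ball (0:ℂ) R, (h2 x).re = H x := by
    intro x hx
    simp only [hh2, hHdef, Complex.add_re, Complex.one_re, hh_re, Complex.mul_re, Complex.re_ofNat,
      Complex.im_ofNat, zero_mul, sub_zero, CP_re hVc hx]
  have hhare : ∀ x ∈ ball (0:ℂ) R, (ha x).re = 1 + HH 0 b x + PI R V x := by
    intro x hx
    simp only [hha, Complex.add_re, Complex.one_re, hh_re, CP_re hVc hx]
  have hhcre : ∀ x ∈ ball (0:ℂ) R, (hc x).re = 1 + PI R V x := by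
    intro x hx
    simp only [hhc, Complex.add_re, Complex.one_re, CP_re hVc hx]
  have hH1 : ∀ x ∈ ball (0:ℂ) R, 1 + PI R V x ≤ H x := by
    intro x hx
    have := hUW x hx
    simp only [hHdef]; linarith
  have hHone : ∀ x ∈ ball (0:ℂ) R, 1 ≤ H x := by
    intro x hx
    have := hW0 x hx
    have := hH1 x hx
    linarith
  have hsub : ∀ x ∈ ball (0:ℂ) R, ball x (R - ‖x‖) ⊆ ball 0 R := by
    intro x hx z hz
    rw [mem_ball_zero_iff]
    rw [mem_ball, dist_eq_norm] at hz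
    have := norm_sub_norm_le z x
    linarith
  have hharn : ∀ x y : ℂ, ‖x‖ ≤ 1 - 1 / (2 * n) → ‖y - x‖ ≤ 7 / 16 * (1 - ‖x‖) → H y ≤ 3 * H x := by
    intro x y hx hy
    have hxb := hball x hx
    have hg := hgap x hx
    have hr : 0 < R - ‖x‖ := by rw [mem_ball_zero_iff] at hxb; linarith
    have hyb : y ∈ ball x (R - ‖x‖) := by
      rw [mem_ball, dist_eq_norm]; linarith
    have h1 := (schwarz_re hr (hh2d.mono (hsub x hxb)) (fun z hz => by
      rw [hh2re z (hsub x hxb hz)]; linarith [hHone z (hsub x hxb hz)])).2 y hyb (by linarith)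
    rwa [hh2re x hxb, hh2re y (hsub x hxb hyb)] at h1
  have hWharn : ∀ x y : ℂ, ‖x‖ ≤ 1 - 1 / (2 * n) → ‖y - x‖ ≤ 7 / 16 * (1 - ‖x‖) →
      1 + PI R V y ≤ 3 * (1 + PI R V x) := by
    intro x y hx hy
    have hxb := hball x hx
    have hg := hgap x hx
    have hr : 0 < R - ‖x‖ := by rw [mem_ball_zero_iff] at hxb; linarith
    have hyb : y ∈ ball x (R - ‖x‖) := by
      rw [mem_ball, dist_eq_norm]; linarith
    have h1 := (schwarz_re hr (hhcd.mono (hsub x hxb)) (fun z hz => by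
      rw [hhcre z (hsub x hxb hz)]; linarith [hW0 z (hsub x hxb hz)])).2 y hyb (by linarith)
    rwa [hhcre x hxb, hhcre y (hsub x hxb hyb)] at h1
  refine ⟨H, ⟨hb, fun x hx => hHone x (hball x hx), ?_, hharn, ?_, ?_, ?_, ?_⟩, ?_⟩
  · -- `U ≤ H`
    intro x hx
    have := hW0 x (hball x hx)
    simp only [hHdef]; linarith
  · -- the number of points
    intro x hx
    have hxb := hball x hx
    have hg := hgap x hx
    have hx1 : ‖x‖ < 1 := by rw [mem_ball_zero_iff] at hxb; linarith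
    have hr : 0 < R - ‖x‖ := by rw [mem_ball_zero_iff] at hxb; linarith
    set D := ∑ j, starRingEnd ℂ (b j) / (1 - x * starRingEnd ℂ (b j)) with hD
    have e1 : ∑ j, (1 - ‖x * starRingEnd ℂ (b j)‖ ^ 2) / ‖1 - x * starRingEnd ℂ (b j)‖ ^ 2 =
        n + 2 * (x * D).re := by
      rw [hD, Finset.mul_sum, Complex.re_sum, Finset.mul_sum]
      have : n = ∑ j : ι, (1:ℝ) := by simp [hndef]
      rw [this, ← Finset.sum_add_distrib]
      refine Finset.sum_congr rfl fun j _ => ?_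
      rw [re_div_one_sub (norm_mul_conj_lt hx1 (hb j)), mul_div_assoc]
    rw [e1]
    have hderH : HasDerivAt (hh 0 b) D x := hh_hasDeriv 0 hb hx1
    have hderC : DifferentiableAt ℂ (CP R V) x := hCdiff.differentiableAt (isOpen_ball.mem_nhds hxb)
    have hda : HasDerivAt ha (D + deriv (CP R V) x) x := (hderH.const_add 1).add hderC.hasDerivAt
    have hdc : HasDerivAt hc (deriv (CP R V) x) x := hderC.hasDerivAt.const_add 1
    have g1 := (schwarz_re hr (hhad.mono (hsub x hxb)) (fun z hz => by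
      rw [hhare z (hsub x hxb hz)]; linarith [hUW z (hsub x hxb hz)])).1
    have g2 := (schwarz_re hr (hhcd.mono (hsub x hxb)) (fun z hz => by
      rw [hhcre z (hsub x hxb hz)]; linarith [hW0 z (hsub x hxb hz)])).1
    rw [hda.deriv, hhare x hxb] at g1
    rw [hdc.deriv, hhcre x hxb] at g2
    have g3 : ‖D‖ ≤ ‖D + deriv (CP R V) x‖ + ‖deriv (CP R V) x‖ := by
      have e : D = (D + deriv (CP R V) x) - deriv (CP R V) x := by ring
      nth_rewrite 1 [e]
      exact norm_sub_le _ _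
    have g4 : ‖D‖ * (R - ‖x‖) ≤ 4 * H x := by
      have h1 : ‖D‖ * (R - ‖x‖) ≤ (‖D + deriv (CP R V) x‖ + ‖deriv (CP R V) x‖) * (R - ‖x‖) :=
        mul_le_mul_of_nonneg_right g3 hr.le
      have h2 := hHone x hxb
      have h3 : H x = 1 + HH 0 b x + 2 * PI R V x := rfl
      nlinarith
    have h5 : (x * D).re ≤ ‖D‖ := by
      refine (Complex.re_le_norm _).trans ?_
      rw [norm_mul]
      nlinarith [norm_nonneg D, norm_nonneg x]
    have h6 : 2 * ‖D‖ ≤ 10 * H x / (1 - ‖x‖) := by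
      rw [le_div_iff₀ (by linarith)]
      have h7 : ‖D‖ * (7 / 8 * (1 - ‖x‖)) ≤ ‖D‖ * (R - ‖x‖) :=
        mul_le_mul_of_nonneg_left hg (norm_nonneg _)
      have h8 := hHone x hxb
      nlinarith
    linarith
  · -- monotonicity
    intro e he r ρ hr hrρ hρ
    have hr8 : 8 * h ≤ r := by rw [← h2n]; exact hr
    have hstep : ∀ x ∈ ball (0:ℂ) R, PI R V ((R : ℂ) * x) ≤ PI R V x + 2 * (1 / 16) := by
      intro x hx
      have h1 := PI_mono ((CS_dil hs0 hR1 hR0 hVc).sub continuousOn_const) hVc hx hVs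
      have h3 : PI R ((fun z => PI R V ((R : ℂ) * z)) - fun _ => 2 * (1 / 16)) x =
          PI R (fun z => PI R V ((R : ℂ) * z) - 2 * (1 / 16)) x := rfl
      rw [h3, PI_sub_const (CS_dil hs0 hR1 hR0 hVc) _ hx, PI_dil hs0 hR1 hVc hx] at h1
      linarith
    set x : ℂ := ((1 - r : ℝ) : ℂ) * e with hx
    have hxn : ‖x‖ ≤ 1 - r := by
      rw [hx, norm_mul, Complex.norm_real, Real.norm_of_nonneg (by linarith)]
      nlinarith [norm_nonneg e]
    have hxb : x ∈ ball (0:ℂ) R := by rw [mem_ball_zero_iff]; linarith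
    have hiter : ∀ k : ℕ, ((R ^ k : ℝ) : ℂ) * x ∈ ball (0:ℂ) R ∧
        PI R V (((R ^ k : ℝ) : ℂ) * x) ≤ PI R V x + k * (1 / 8) := by
      intro k
      induction k with
      | zero => simpa using mem_ball_zero_iff.mp hxb
      | succ k ih =>
        obtain ⟨ih1, ih2⟩ := ih
        have e1 : ((R ^ (k + 1) : ℝ) : ℂ) * x = (R : ℂ) * (((R ^ k : ℝ) : ℂ) * x) := by
          push_cast; ring
        rw [e1]
        refine ⟨dil_mem hs0 hR1 hR0 (ball_subset_closedBall ih1), ?_⟩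
        have := hstep _ ih1
        rw [Nat.cast_succ]
        linarith
    have hq0 : 0 < (1 - ρ) / (1 - r) := by apply div_pos <;> linarith
    have hq1 : (1 - ρ) / (1 - r) ≤ 1 := by rw [div_le_one (by linarith)]; linarith
    obtain ⟨k, hk1, hk2⟩ := exists_nat_pow_near_of_lt_one hq0 hq1 hR0 hR1
    obtain ⟨hkb, hkW⟩ := hiter k
    set x' : ℂ := ((R ^ k : ℝ) : ℂ) * x with hx'
    have hRk0 : 0 < R ^ k := by positivity
    have hRk1 : R ^ k ≤ 1 := pow_le_one₀ hR0.le hR1.le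
    have hx'n : ‖x'‖ ≤ 1 - r := by
      rw [hx', norm_mul, Complex.norm_real, Real.norm_of_nonneg hRk0.le]
      nlinarith [norm_nonneg x]
    -- the count `k`
    have hkh : (k : ℝ) * h ≤ 2 * ρ := by
      have h1 : R ^ k ≤ Real.exp (-(k * h)) := by
        have h2 : R ≤ Real.exp (-h) := by rw [hR]; exact Real.one_sub_le_exp_neg h
        calc R ^ k ≤ (Real.exp (-h)) ^ k := pow_le_pow_left₀ hR0.le h2 k
          _ = Real.exp (-(k * h)) := by rw [← Real.exp_nat_mul]; congr 1; ring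
      have h3 : 1 - ρ ≤ (1 - ρ) / (1 - r) := by
        rw [le_div_iff₀ (by linarith)]; nlinarith
      have h4 : 1 - ρ ≤ Real.exp (-(k * h)) := h3.trans (hk2.trans h1)
      have h5 : Real.exp (-(2 * ρ)) ≤ 1 - ρ := by
        have h6 : 1 / (1 + 2 * ρ) ≤ 1 - ρ := by
          rw [div_le_iff₀ (by linarith)]; nlinarith
        refine le_trans ?_ h6
        rw [Real.exp_neg, ← one_div]
        apply one_div_le_one_div_of_le (by linarith)
        have := Real.add_one_le_exp (2 * ρ)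
        linarith
      have h7 := Real.exp_le_exp.mp (h5.trans h4)
      linarith
    have hk8 : (k : ℝ) * (1 / 8) ≤ 4 * n * ρ := by
      have e1 : (k : ℝ) * (1 / 8) = 2 * n * (k * h) := by
        have : (1:ℝ) / 8 = 2 * (n * h) := by rw [hnh]; norm_num
        rw [this]; ring
      rw [e1]
      nlinarith
    -- comparison with the end point
    have hdist : ‖((1 - ρ : ℝ) : ℂ) * e - x'‖ ≤ 7 / 16 * (1 - ‖x'‖) := by
      have e1 : ((1 - ρ : ℝ) : ℂ) * e - x' = (((1 - ρ) - R ^ k * (1 - r) : ℝ) : ℂ) * e := by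
        rw [hx', hx]; push_cast; ring
      have h1 : 1 - ρ ≤ R ^ k * (1 - r) := by
        rw [div_le_iff₀ (by linarith)] at hk2; linarith
      have h2 : R ^ (k + 1) * (1 - r) ≤ 1 - ρ := by
        rw [lt_div_iff₀ (by linarith)] at hk1; linarith
      have h3 : R ^ k * (1 - r) - (1 - ρ) ≤ h := by
        have e2 : R ^ (k + 1) * (1 - r) = R ^ k * (1 - r) - h * (R ^ k * (1 - r)) := by
          rw [pow_succ, hR]; ring
        have h4 : R ^ k * (1 - r) ≤ 1 := by nlinarith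
        nlinarith
      rw [e1, norm_mul, Complex.norm_real, Real.norm_eq_abs, abs_sub_comm, abs_of_nonneg (by linarith)]
      have h5 : (R ^ k * (1 - r) - (1 - ρ)) * ‖e‖ ≤ h := by nlinarith [norm_nonneg e]
      linarith
    have h1 := hWharn x' _ (by rw [h2n]; linarith) hdist
    have h2 := HH_mono 0 hb (s := 1 - ρ) (s' := 1 - r) (by linarith) (by linarith)
      (by linarith) he
    rw [← hndef] at h2
    have h3 := hH1 x hxb
    have h4 := hUW x hxb
    have h5 := hW0 x hxb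
    simp only [hHdef] at h3 ⊢
    have h6 : n * (1 - r - (1 - ρ)) ≤ n * ρ := by nlinarith
    rw [← hx] at h2
    linarith
  · -- continuity
    have h1 : ContinuousOn (fun x => (h2 x).re) (closedBall 0 (1 - 1 / (2 * n))) := by
      apply Complex.continuous_re.comp_continuousOn
      apply hh2d.continuousOn.mono
      intro x hx
      exact hball x (mem_closedBall_zero_iff.mp hx)
    apply h1.congr
    intro x hx
    exact (hh2re x (hball x (mem_closedBall_zero_iff.mp hx))).symm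
  · -- the grid
    intro N hN hNn
    set E := nthRootsFinset N (1:ℂ) with hE
    set r : ℝ := 1 - 1 / (2 * n) with hr
    have hr0 : 0 < r := by rw [hr, h2n]; linarith
    have hrR : r < R := by rw [hr, h2n]; linarith
    have hEn : ∀ ζ ∈ E, ‖ζ‖ = 1 := fun ζ hζ => norm_of_mem_grid hN hζ
    have hmem : ∀ ζ ∈ E, ∀ x : ℂ, ‖x‖ ≤ r → ζ * x ∈ ball (0:ℂ) R := by
      intro ζ hζ x hx
      rw [mem_ball_zero_iff, norm_mul, hEn ζ hζ, one_mul]
      linarith
    have hGd : DiffContOnCl ℂ (fun x => ∑ ζ ∈ E, h2 (ζ * x)) (ball 0 |r|) := by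
      apply DifferentiableOn.diffContOnCl
      rw [abs_of_pos hr0, closure_ball _ hr0.ne']
      apply DifferentiableOn.fun_sum
      intro ζ hζ
      apply hh2d.comp (by fun_prop)
      intro x hx
      exact hmem ζ hζ x (mem_closedBall_zero_iff.mp hx)
    have hG := hGd.circleAverage
    have hGc : ContinuousOn (fun x => ∑ ζ ∈ E, h2 (ζ * x)) (sphere 0 |r|) := by
      apply hGd.continuousOn.mono
      rw [abs_of_pos hr0, closure_ball _ hr0.ne']
      exact sphere_subset_closedBall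
    have hGre := Complex.reCLM.circleAverage_comp_comm hGc.circleIntegrable'
    rw [hG] at hGre
    have hcomp : IsCompact (sphere (0:ℂ) |r|) := isCompact_sphere _ _
    have hne : (sphere (0:ℂ) |r|).Nonempty := ⟨(r : ℂ), by
      rw [mem_sphere_zero_iff_norm, Complex.norm_real, Real.norm_eq_abs]⟩
    obtain ⟨x0, hx0, hmin⟩ := hcomp.exists_isMinOn hne
      (Complex.continuous_re.comp_continuousOn hGc)
    have h1 : (∑ ζ ∈ E, h2 (ζ * x0)).re ≤ N * H 0 := by
      have h3 : (∑ ζ ∈ E, h2 (ζ * x0)).re ≤ Real.circleAverage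
          (Complex.reCLM ∘ fun x => ∑ ζ ∈ E, h2 (ζ * x)) 0 r := by
        rw [← Real.circleAverage_const ((∑ ζ ∈ E, h2 (ζ * x0)).re) 0 r]
        apply Real.circleAverage_mono (circleIntegrable_const _ _ _)
        · exact ContinuousOn.circleIntegrable' (Complex.continuous_re.comp_continuousOn hGc)
        · intro x hx
          exact hmin hx
      rw [hGre] at h3
      refine h3.trans (le_of_eq ?_)
      simp only [mul_zero, Finset.sum_const, hE, card_grid hN, nsmul_eq_mul]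
      rw [Complex.reCLM_apply, ← hh2re 0 (mem_ball_self hR0)]
      simp
    rw [mem_sphere_zero_iff_norm, abs_of_pos hr0] at hx0
    have hrc : (r : ℂ) ≠ 0 := by exact_mod_cast hr0.ne'
    have hc1 := count_grid hN (M := 1) hN (s := 7 / (32 * n)) hNn (z := x0 / r) (by
      rw [norm_div, Complex.norm_real, Real.norm_of_nonneg hr0.le, hx0, div_self hr0.ne'])
    obtain ⟨ζ0, hζ0⟩ := Finset.card_pos.mp (Nat.lt_of_lt_of_le Nat.one_pos hc1)
    rw [Finset.mem_filter] at hζ0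
    obtain ⟨hζ0E, hζ0d⟩ := hζ0
    have hζ00 : ζ0 ≠ 0 := by
      intro h0
      have := hEn ζ0 hζ0E
      rw [h0, norm_zero] at this
      norm_num at this
    have h3 : ∀ ζ ∈ E, H ((r : ℂ) * ζ) ≤ 3 * H (ζ * ζ0⁻¹ * x0) := by
      intro ζ hζ
      have hn1' : ‖ζ * ζ0⁻¹ * x0‖ = r := by
        rw [norm_mul, norm_mul, norm_inv, hEn ζ hζ, hEn ζ0 hζ0E, hx0]; simp
      apply hharn
      · rw [hn1']
      · rw [hn1']
        have e1 : (r : ℂ) * ζ - ζ * ζ0⁻¹ * x0 = ζ * ζ0⁻¹ * (r : ℂ) * (ζ0 - x0 / r) := by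
          field_simp
        rw [e1, norm_mul, norm_mul, norm_mul, norm_inv, hEn ζ hζ, hEn ζ0 hζ0E, Complex.norm_real,
          Real.norm_of_nonneg hr0.le, inv_one, mul_one, one_mul]
        have e2 : 7 / 16 * (1 - r) = 7 / (32 * n) := by rw [hr]; field_simp; ring
        rw [e2]
        have h4 : r * ‖ζ0 - x0 / r‖ ≤ ‖ζ0 - x0 / r‖ := by
          nlinarith [norm_nonneg (ζ0 - x0 / r)]
        exact h4.trans hζ0d
    have h4 : ∑ ζ ∈ E, H (ζ * ζ0⁻¹ * x0) = ∑ ζ ∈ E, H (ζ * x0) := by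
      apply Finset.sum_bij' (fun ζ _ => ζ * ζ0⁻¹) (fun ζ _ => ζ * ζ0)
      · intro ζ hζ
        have h6 : ζ0 ^ N = 1 := (mem_nthRootsFinset hN _).mp hζ0E
        have h7 : ζ ^ N = 1 := (mem_nthRootsFinset hN _).mp hζ
        apply (mem_nthRootsFinset hN _).mpr
        rw [mul_pow, inv_pow, h6, h7]; simp
      · intro ζ hζ
        have h6 : ζ0 ^ N = 1 := (mem_nthRootsFinset hN _).mp hζ0E
        have h7 : ζ ^ N = 1 := (mem_nthRootsFinset hN _).mp hζ
        apply (mem_nthRootsFinset hN _).mpr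
        rw [mul_pow, h6, h7]; simp
      · intro ζ _
        field_simp
      · intro ζ _
        field_simp
      · intro ζ _
        rfl
    have h5 : (∑ ζ ∈ E, h2 (ζ * x0)).re = ∑ ζ ∈ E, H (ζ * x0) := by
      rw [Complex.re_sum]
      exact Finset.sum_congr rfl fun ζ hζ => hh2re _ (hmem ζ hζ x0 hx0.le)
    calc ∑ ζ ∈ E, H ((r : ℂ) * ζ) ≤ ∑ ζ ∈ E, 3 * H (ζ * ζ0⁻¹ * x0) := Finset.sum_le_sum h3
      _ = 3 * (∑ ζ ∈ E, h2 (ζ * x0)).re := by rw [← Finset.mul_sum, h4, h5]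
      _ ≤ 3 * (N * H 0) := by linarith
      _ = 3 * N * H 0 := by ring
  · -- the value at the origin
    have h1 : HH 0 b 0 = 0 := by simp [HH]
    have h3 : H 0 = 1 + 2 * PI R V 0 := by simp only [hHdef]; rw [h1]; ring
    rw [h3, PI_zero hR0]
    linarith

end Pool.Agent.Y947.DP
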