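import Mathlib
import Pool.Agent.Y947.DL.Radii
import Pool.Agent.Y947.DP.Dom

/-!
# Choice of the radii and energy of the contracted points
-/

set_option autoImplicit false

open Complex Metric Finset Polynomial Pool.Agent.Y947.DL

namespace Pool.Agent.Y947.DP

variable {ι : Type*} [Fintype ι]

/-- the function minimised in the choice of the radii -/
noncomputable def FG (n : ℝ) (H : ℂ → ℝ) (e : ℂ) (ρ : ℝ) : ℝ :=
  n * ρ + H (((1 - ρ : ℝ) : ℂ) * e)

lemma exists_min2 {b : ι → ℂ} {n : ℝ} {H : ℂ → ℝ} (h : Dom b n H) (hn : 1 ≤ n) {e : ℂ} (he : ‖e‖ ≤ 1) :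
    ∃ ρ ∈ Set.Icc (1 / (2 * n)) (1 / 2), ∀ ρ' ∈ Set.Icc (1 / (2 * n)) (1 / 2),
      FG n H e ρ ≤ FG n H e ρ' := by
  have hne : (Set.Icc (1 / (2 * n)) (1 / 2 : ℝ)).Nonempty := by
    refine ⟨1 / 2, ?_, le_refl _⟩
    apply one_div_le_one_div_of_le (by norm_num); linarith
  have hcont : ContinuousOn (FG n H e) (Set.Icc (1 / (2 * n)) (1 / 2)) := by
    unfold FG
    apply ContinuousOn.add (by fun_prop)
    apply h.cont.comp (by fun_prop)
    intro ρ hρ
    rw [mem_closedBall_zero_iff]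
    have hρ0 : 1 / (2 * n) ≤ ρ := hρ.1
    have hρ1 : ρ ≤ 1 / 2 := hρ.2
    exact (norm_real_mul_le (by linarith) he).trans (by linarith)
  obtain ⟨ρ, hρ, hmin⟩ := isCompact_Icc.exists_isMinOn hne hcont
  exact ⟨ρ, hρ, fun ρ' hρ' => hmin hρ'⟩

/-- the choice of the radii: every `b j` gets a radius, and the total cost is bounded -/
theorem radii2 {b : ι → ℂ} {H : ℂ → ℝ} (h : Dom b (Fintype.card ι) H) (hn : 0 < Fintype.card ι)
    (hL : H 0 ≤ 4 * Fintype.card ι) :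
    ∃ ρ : ι → ℝ, (∀ j, 1 / (2 * (Fintype.card ι : ℝ)) ≤ ρ j ∧ 0 < ρ j ∧ ρ j ≤ 1 / 2) ∧
      ∑ j, (Fintype.card ι * ρ j + H (((1 - ρ j : ℝ) : ℂ) * b j)) ≤
        1300000000000 * Fintype.card ι * (1 + H 0 + ∑ j, (1 - ‖b j‖)) := by
  classical
  set n : ℝ := (Fintype.card ι : ℝ) with hndef
  have hn1 : 1 ≤ n := by rw [hndef]; exact_mod_cast hn
  have hn0 : 0 < n := by linarith
  have h2n : 1 / (2 * n) ≤ 1 / 2 := by
    apply one_div_le_one_div_of_le (by norm_num); linarith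
  have h2n0 : 0 < 1 / (2 * n) := by positivity
  have hL1 : 1 ≤ H 0 := h.one 0 (by rw [norm_zero]; linarith)
  choose! r hr using fun (e : ℂ) (he : ‖e‖ ≤ 1) => exists_min2 h hn1 he
  set u : ℂ → ℝ := fun e => FG n H e (r e) with hu
  have hFF : ∀ e ρ, FG n H e ρ = n * ρ + H (((1 - ρ : ℝ) : ℂ) * e) := fun e ρ => rfl
  have hpos' : ∀ e : ℂ, ‖e‖ ≤ 1 → ∀ ρ : ℝ, 1 / (2 * n) ≤ ρ → ρ ≤ 1 → 1 ≤ H (((1 - ρ : ℝ) : ℂ) * e) := by
    intro e he ρ h0 h1
    apply h.one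
    exact (norm_real_mul_le (by linarith) he).trans (by linarith)
  have hr1 : ∀ e : ℂ, ‖e‖ ≤ 1 → 1 / (2 * n) ≤ r e ∧ r e ≤ 1 / 2 := fun e he =>
    ⟨(hr e he).1.1, (hr e he).1.2⟩
  have hrpos : ∀ e : ℂ, ‖e‖ ≤ 1 → 0 < r e := fun e he =>
    lt_of_lt_of_le (by positivity) (hr1 e he).1
  have hnr : ∀ e : ℂ, ‖e‖ ≤ 1 → 1 / 2 ≤ n * r e := by
    intro e he
    have h1 := mul_le_mul_of_nonneg_left (hr1 e he).1 hn0.le
    have h2 : n * (1 / (2 * n)) = 1 / 2 := by field_simp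
    linarith
  have hrHu : ∀ e : ℂ, ‖e‖ ≤ 1 → n * r e + 1 ≤ u e := by
    intro e he
    have h1 := hpos' e he (r e) (hr1 e he).1 (by linarith [(hr1 e he).2])
    simp only [hu, hFF]
    linarith
  have hu_one : ∀ e : ℂ, ‖e‖ ≤ 1 → 1 < u e := fun e he => by
    linarith [hnr e he, hrHu e he]
  have hHu : ∀ e : ℂ, ‖e‖ ≤ 1 → H (((1 - r e : ℝ) : ℂ) * e) = u e - n * r e := by
    intro e he
    simp only [hu, hFF]
    ring
  have hu37 : ∀ e : ℂ, ‖e‖ ≤ 1 → u e ≤ 37 * n := by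
    intro e he
    have h1 := (hr e he).2 (1 / 2) ⟨h2n, le_refl _⟩
    rw [hFF e (1 / 2)] at h1
    have h2 := h.harn 0 (((1 / 4 : ℝ) : ℂ) * e) (by rw [norm_zero]; linarith) (by
      rw [sub_zero, norm_zero, sub_zero]
      have := norm_real_mul_le (t := 1 / 4) (by norm_num) he
      linarith)
    have h3 := h.harn (((1 / 4 : ℝ) : ℂ) * e) (((1 - 1 / 2 : ℝ) : ℂ) * e) (by
      have := norm_real_mul_le (t := 1 / 4) (by norm_num) he
      linarith) (by
      have h4 := norm_real_mul_le (t := 1 / 4) (by norm_num) he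
      rw [← sub_mul, ← Complex.ofReal_sub]
      have h5 := norm_real_mul_le (t := 1 - 1 / 2 - 1 / 4) (by norm_num) he
      linarith)
    have h4 : FG n H e (r e) = u e := rfl
    linarith
  have hnear : ∀ e e' : ℂ, ‖e‖ ≤ 1 → ‖e'‖ ≤ 1 → ‖e - e'‖ ≤ u e' / (400 * n) → u e' ≤ 160 * u e := by
    intro e e' he he' hee
    by_contra hc
    push Not at hc
    set v := u e' with hv
    set ρ := v / (160 * n) with hρ
    have hv37 : v ≤ 37 * n := hu37 e' he'
    have hρ1 : ρ ≤ 1 / 2 := by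
      rw [hρ, div_le_iff₀ (by positivity)]; linarith
    have hnρ : n * ρ = v / 160 := by rw [hρ]; field_simp
    have hrρ : r e ≤ ρ := by
      have h1 := hrHu e he
      have h2 : n * r e ≤ n * ρ := by rw [hnρ]; linarith
      exact le_of_mul_le_mul_left h2 hn0
    have hρ0 : 1 / (2 * n) ≤ ρ := (hr1 e he).1.trans hrρ
    have hρpos : 0 < ρ := h2n0.trans_le hρ0
    have h1 := h.mono e he (r e) ρ (hr1 e he).1 hrρ hρ1
    rw [hHu e he] at h1
    have h2 : H (((1 - ρ : ℝ) : ℂ) * e) ≤ 30 * (v / 160) := by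
      have e1 : 25 * n * ρ = 25 * (v / 160) := by rw [mul_assoc, hnρ]
      rw [e1] at h1
      have := hnr e he
      linarith
    have hxn : ‖((1 - ρ : ℝ) : ℂ) * e‖ ≤ 1 - ρ := norm_real_mul_le (by linarith) he
    have h3 := h.harn (((1 - ρ : ℝ) : ℂ) * e) (((1 - ρ : ℝ) : ℂ) * e') (by linarith) (by
        rw [← mul_sub, norm_mul, Complex.norm_real, Real.norm_of_nonneg (by linarith),
          norm_sub_rev]
        have h4 : u e' / (400 * n) = 2 / 5 * ρ := by rw [hρ]; field_simp; ring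
        have h5 : (1 - ρ) * ‖e - e'‖ ≤ ‖e - e'‖ := by
          nlinarith [norm_nonneg (e - e')]
        rw [h4] at hee
        linarith)
    have h6 := (hr e' he').2 ρ ⟨hρ0, hρ1⟩
    rw [hFF e' ρ, hnρ] at h6
    have h7 : FG n H e' (r e') = v := rfl
    have h8 := hu_one e' he'
    linarith
  have hgood : ∀ e : ℂ, ‖e‖ ≤ 1 → ∃ ρ : ℝ, u e / (80 * n) ≤ ρ ∧ n * ρ ≤ u e ∧ 0 < ρ ∧ ρ ≤ 1 / 2 ∧
      ∑ j, (1 - ‖((1 - ρ : ℝ) : ℂ) * e * starRingEnd ℂ (b j)‖ ^ 2) /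
        ‖1 - ((1 - ρ : ℝ) : ℂ) * e * starRingEnd ℂ (b j)‖ ^ 2 ≤ 24001 * n := by
    intro e he
    have hu0 : 0 < u e := by linarith [hu_one e he]
    set ρ := max (r e) (u e / (80 * n)) with hρ
    have h1 : u e / (80 * n) ≤ ρ := le_max_right _ _
    have hn80 : n * (u e / (80 * n)) = u e / 80 := by field_simp
    have h2 : n * ρ ≤ u e := by
      rw [hρ, mul_max_of_nonneg _ _ hn0.le, hn80]
      exact max_le (by linarith [hrHu e he]) (by linarith)
    have h3 : 0 < ρ := lt_of_lt_of_le (hrpos e he) (le_max_left _ _)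
    have h4 : ρ ≤ 1 / 2 := by
      apply max_le (hr1 e he).2
      rw [div_le_iff₀ (by positivity)]
      linarith [hu37 e he]
    refine ⟨ρ, h1, h2, h3, h4, ?_⟩
    have hρr : r e ≤ ρ := le_max_left _ _
    have hρ0 : 1 / (2 * n) ≤ ρ := (hr1 e he).1.trans hρr
    have hxn : ‖((1 - ρ : ℝ) : ℂ) * e‖ ≤ 1 - ρ := norm_real_mul_le (by linarith) he
    have h5 := h.sumP (((1 - ρ : ℝ) : ℂ) * e) (by linarith)
    have hH2 : H (((1 - ρ : ℝ) : ℂ) * e) ≤ 30 * u e := by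
      have h6 := h.mono e he (r e) ρ (hr1 e he).1 hρr h4
      rw [hHu e he] at h6
      have := hnr e he
      nlinarith
    have hH0 : 1 ≤ H (((1 - ρ : ℝ) : ℂ) * e) := hpos' e he ρ hρ0 (by linarith)
    have h7 : 10 * H (((1 - ρ : ℝ) : ℂ) * e) / (1 - ‖((1 - ρ : ℝ) : ℂ) * e‖) ≤ 24000 * n := by
      calc 10 * H (((1 - ρ : ℝ) : ℂ) * e) / (1 - ‖((1 - ρ : ℝ) : ℂ) * e‖)
          ≤ 10 * H (((1 - ρ : ℝ) : ℂ) * e) / ρ := by
            apply div_le_div_of_nonneg_left (by linarith) h3; linarith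
        _ ≤ 24000 * n := by
            rw [div_le_iff₀ h3]
            have h8 : u e ≤ 80 * n * ρ := by
              rw [div_le_iff₀ (by positivity)] at h1
              linarith
            nlinarith
    linarith
  choose! ρg hρg using hgood
  -- lower bound for the kernels
  have hlow : ∀ e : ℂ, ‖e‖ = 1 → ∀ j, ‖e - b j‖ ≤ u (b j) / (400 * n) →
      n / 1089 ≤ u e * ((1 - ‖((1 - ρg e : ℝ) : ℂ) * e * starRingEnd ℂ (b j)‖ ^ 2) /
        ‖1 - ((1 - ρg e : ℝ) : ℂ) * e * starRingEnd ℂ (b j)‖ ^ 2) := by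
    intro e he j hj
    obtain ⟨g1, g2, g3, g4, -⟩ := hρg e he.le
    set ρ := ρg e with hρ
    set x : ℂ := ((1 - ρ : ℝ) : ℂ) * e with hx
    have hxn : ‖x‖ ≤ 1 - ρ := norm_real_mul_le (by linarith) he.le
    have hxb : ‖x * starRingEnd ℂ (b j)‖ ≤ 1 - ρ := by
      rw [norm_mul, RCLike.norm_conj]
      nlinarith [h.hb j, norm_nonneg x, norm_nonneg (b j)]
    have hnum : ρ ≤ 1 - ‖x * starRingEnd ℂ (b j)‖ ^ 2 := by
      nlinarith [norm_nonneg (x * starRingEnd ℂ (b j))]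
    have hden0 : 0 < ‖1 - x * starRingEnd ℂ (b j)‖ :=
      norm_pos_iff.mpr (one_sub_ne (by linarith))
    have hden : ‖1 - x * starRingEnd ℂ (b j)‖ ≤ 33 * ρ := by
      have e1 : 1 - x * starRingEnd ℂ (b j) = (1 - e * starRingEnd ℂ (b j)) +
          (ρ : ℂ) * (e * starRingEnd ℂ (b j)) := by
        rw [hx]; push_cast; ring
      have e2 : ‖1 - e * starRingEnd ℂ (b j)‖ = ‖e - b j‖ := by
        have h1 : e * starRingEnd ℂ e = 1 := by
          rw [Complex.mul_conj, Complex.normSq_eq_norm_sq, he]; norm_num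
        have h2 : 1 - e * starRingEnd ℂ (b j) = e * starRingEnd ℂ (e - b j) := by
          rw [map_sub, mul_sub, h1]
        rw [h2, norm_mul, he, one_mul, RCLike.norm_conj]
      have e3 : ‖(ρ : ℂ) * (e * starRingEnd ℂ (b j))‖ ≤ ρ := by
        apply norm_real_mul_le g3.le
        rw [norm_mul, he, one_mul, RCLike.norm_conj]
        exact h.hb j
      have h1 := hnear e (b j) he.le (h.hb j) hj
      have h2 : u (b j) / (400 * n) ≤ 32 * ρ := by
        rw [div_le_iff₀ (by positivity)]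
        rw [div_le_iff₀ (by positivity)] at g1
        linarith
      rw [e1]
      refine (norm_add_le _ _).trans ?_
      rw [e2]
      linarith
    have hu0 : 0 < u e := by linarith [hu_one e he.le]
    rw [← mul_div_assoc, le_div_iff₀ (by positivity)]
    have h3 : ‖1 - x * starRingEnd ℂ (b j)‖ ^ 2 ≤ 1089 * ρ ^ 2 := by
      have := pow_le_pow_left₀ (norm_nonneg _) hden 2
      nlinarith
    calc n / 1089 * ‖1 - x * starRingEnd ℂ (b j)‖ ^ 2 ≤ n / 1089 * (1089 * ρ ^ 2) := by gcongr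
      _ = (n * ρ) * ρ := by ring
      _ ≤ u e * (1 - ‖x * starRingEnd ℂ (b j)‖ ^ 2) := by
        apply mul_le_mul g2 hnum g3.le hu0.le
  -- the grid
  set N : ℕ := 16000 * Fintype.card ι with hN
  have hN0 : 0 < N := by omega
  have hNn : (N : ℝ) = 16000 * n := by rw [hN, hndef]; push_cast; ring
  set E := nthRootsFinset N (1:ℂ) with hE
  have hEn : ∀ ζ ∈ E, ‖ζ‖ = 1 := fun ζ hζ => norm_of_mem_grid hN0 hζ
  have hsumu : ∑ ζ ∈ E, u ζ ≤ N * (1 + 3 * H 0) := by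
    have h1 : ∀ ζ ∈ E, u ζ ≤ 1 / 2 + H (((1 - 1 / (2 * n) : ℝ) : ℂ) * ζ) := by
      intro ζ hζ
      have h2 := (hr ζ (hEn ζ hζ).le).2 (1 / (2 * n)) ⟨le_refl _, h2n⟩
      have h3 : FG n H ζ (1 / (2 * n)) = 1 / 2 + H (((1 - 1 / (2 * n) : ℝ) : ℂ) * ζ) := by
        rw [hFF]
        congr 1
        field_simp
      rw [h3] at h2
      exact h2
    have h2 := Finset.sum_le_sum h1
    rw [Finset.sum_add_distrib, Finset.sum_const, hE, card_grid hN0, nsmul_eq_mul] at h2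
    have h3 := h.grid N hN0 (by
      rw [hNn, div_le_div_iff₀ (by positivity) (by positivity)]
      have := Real.pi_lt_d2
      push_cast
      nlinarith)
    have h4 : (0:ℝ) < N := by rw [hNn]; positivity
    nlinarith
  have hupos : ∀ ζ ∈ E, 0 ≤ u ζ := fun ζ hζ => by linarith [hu_one ζ (hEn ζ hζ).le]
  set cnt : ι → ℕ := fun j => (E.filter (fun ζ => ‖ζ - b j‖ ≤ u (b j) / (400 * n))).card with hcnt
  have hcount : ∑ j, (cnt j : ℝ) ≤ 26137089 * ∑ ζ ∈ E, u ζ := by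
    set PP : ℂ → ι → ℝ := fun e j => (1 - ‖((1 - ρg e : ℝ) : ℂ) * e * starRingEnd ℂ (b j)‖ ^ 2) /
        ‖1 - ((1 - ρg e : ℝ) : ℂ) * e * starRingEnd ℂ (b j)‖ ^ 2 with hPP
    have hPP0 : ∀ ζ ∈ E, ∀ j, 0 ≤ PP ζ j := by
      intro ζ hζ j
      obtain ⟨g1, g2, g3, g4, -⟩ := hρg ζ (hEn ζ hζ).le
      apply div_nonneg _ (by positivity)
      have hxn : ‖((1 - ρg ζ : ℝ) : ℂ) * ζ‖ ≤ 1 - ρg ζ := norm_real_mul_le (by linarith) (hEn ζ hζ).le
      have hxb : ‖((1 - ρg ζ : ℝ) : ℂ) * ζ * starRingEnd ℂ (b j)‖ < 1 :=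
        norm_mul_conj_lt (by linarith) (h.hb j)
      nlinarith [norm_nonneg (((1 - ρg ζ : ℝ) : ℂ) * ζ * starRingEnd ℂ (b j))]
    have h1 : ∑ ζ ∈ E, u ζ * ∑ j, PP ζ j ≤ ∑ ζ ∈ E, u ζ * (24001 * n) := by
      apply Finset.sum_le_sum
      intro ζ hζ
      apply mul_le_mul_of_nonneg_left _ (hupos ζ hζ)
      exact (hρg ζ (hEn ζ hζ).le).2.2.2.2
    have h2 : ∑ ζ ∈ E, u ζ * ∑ j, PP ζ j = ∑ j, ∑ ζ ∈ E, u ζ * PP ζ j := by
      simp_rw [Finset.mul_sum]
      rw [Finset.sum_comm]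
    have h3 : ∑ j, (cnt j : ℝ) * (n / 1089) ≤ ∑ j, ∑ ζ ∈ E, u ζ * PP ζ j := by
      apply Finset.sum_le_sum
      intro j _
      calc (cnt j : ℝ) * (n / 1089) = ∑ ζ ∈ E.filter (fun ζ => ‖ζ - b j‖ ≤ u (b j) / (400 * n)), n / 1089 := by
            rw [Finset.sum_const, nsmul_eq_mul]
        _ ≤ ∑ ζ ∈ E.filter (fun ζ => ‖ζ - b j‖ ≤ u (b j) / (400 * n)), u ζ * PP ζ j := by
            apply Finset.sum_le_sum
            intro ζ hζ
            rw [Finset.mem_filter] at hζ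
            exact hlow ζ (hEn ζ hζ.1) j hζ.2
        _ ≤ ∑ ζ ∈ E, u ζ * PP ζ j := by
            apply Finset.sum_le_sum_of_subset_of_nonneg (Finset.filter_subset _ _)
            intro ζ hζ _
            exact mul_nonneg (hupos ζ hζ) (hPP0 ζ hζ j)
    rw [← Finset.sum_mul] at h3
    rw [← Finset.sum_mul] at h1
    have h4 : (∑ j, (cnt j : ℝ)) * (n / 1089) ≤ (26137089 * ∑ ζ ∈ E, u ζ) * (n / 1089) := by
      calc (∑ j, (cnt j : ℝ)) * (n / 1089) ≤ (∑ ζ ∈ E, u ζ) * (24001 * n) := by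
            rw [← h2] at h3; exact h3.trans h1
        _ = (26137089 * ∑ ζ ∈ E, u ζ) * (n / 1089) := by ring
    exact le_of_mul_le_mul_right h4 (by positivity)
  have hj : ∀ j, u (b j) ≤ cnt j + 800 * n * (1 - ‖b j‖) := by
    intro j
    set v := u (b j) with hv
    have hv1 : 1 < v := hu_one _ (h.hb j)
    have hv37 : v ≤ 37 * n := hu37 _ (h.hb j)
    by_cases hc : 1 - ‖b j‖ ≤ v / (800 * n)
    · have hb0 : 0 < ‖b j‖ := by
        have : v / (800 * n) ≤ 1 / 8 := by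
          rw [div_le_iff₀ (by positivity)]; linarith
        linarith
      set z : ℂ := b j / (‖b j‖ : ℂ) with hz
      have hbj0 : ((‖b j‖ : ℝ) : ℂ) ≠ 0 := by exact_mod_cast hb0.ne'
      have hz1 : ‖z‖ = 1 := by
        rw [hz, norm_div, Complex.norm_real, norm_norm, div_self hb0.ne']
      have hzb : ‖z - b j‖ = 1 - ‖b j‖ := by
        have e1 : z - b j = ((1 - ‖b j‖ : ℝ) : ℂ) * z := by
          rw [hz]
          push_cast
          field_simp
        rw [e1, norm_mul, hz1, mul_one, Complex.norm_real, Real.norm_of_nonneg]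
        linarith [h.hb j]
      set M : ℕ := ⌊20 * v / (2 * Real.pi)⌋₊ with hM
      have hpi := Real.pi_gt_three
      have hpi2 := Real.pi_lt_d2
      have hM1 : (M : ℝ) ≤ 20 * v / (2 * Real.pi) := Nat.floor_le (by positivity)
      have hM2 : 20 * v / (2 * Real.pi) < M + 1 := Nat.lt_floor_add_one _
      have hMN : M ≤ N := by
        have h1 : (M : ℝ) ≤ N := by
          refine hM1.trans ?_
          rw [div_le_iff₀ (by positivity), hNn]
          nlinarith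
        exact_mod_cast h1
      have hs : 2 * Real.pi * M / N ≤ v / (800 * n) := by
        rw [hNn, div_le_div_iff₀ (by positivity) (by positivity)]
        rw [le_div_iff₀ (by positivity)] at hM1
        nlinarith
      have h1 := count_grid hN0 hMN hs hz1
      have h2 : ((nthRootsFinset N (1:ℂ)).filter (fun ζ => ‖ζ - z‖ ≤ v / (800 * n))).card ≤ cnt j := by
        apply Finset.card_le_card
        intro ζ hζ
        rw [Finset.mem_filter] at hζ ⊢
        refine ⟨hζ.1, ?_⟩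
        have e1 : ζ - b j = (ζ - z) + (z - b j) := by ring
        rw [e1]
        refine (norm_add_le _ _).trans ?_
        rw [hzb]
        have e2 : u (b j) / (400 * n) = v / (800 * n) + v / (800 * n) := by rw [← hv]; field_simp; ring
        rw [e2]
        linarith [hζ.2]
      have h3 : (M : ℝ) ≤ cnt j := by exact_mod_cast h1.trans h2
      have h4 : v ≤ M := by
        rw [div_lt_iff₀ (by positivity)] at hM2
        have h5 : 20 * v < (M + 1) * 6.3 := by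
          refine hM2.trans_le ?_
          apply mul_le_mul_of_nonneg_left _ (by positivity)
          linarith
        linarith
      have h5 : 0 ≤ 800 * n * (1 - ‖b j‖) := by
        apply mul_nonneg (by positivity); linarith [h.hb j]
      linarith
    · push Not at hc
      rw [div_lt_iff₀ (by positivity)] at hc
      have : (0:ℝ) ≤ cnt j := Nat.cast_nonneg _
      linarith
  refine ⟨fun j => r (b j), fun j => ⟨(hr1 _ (h.hb j)).1, hrpos _ (h.hb j), (hr1 _ (h.hb j)).2⟩, ?_⟩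
  have hfin : ∑ j, u (b j) ≤ 26137089 * (N * (1 + 3 * H 0)) + 800 * n * ∑ j, (1 - ‖b j‖) := by
    calc ∑ j, u (b j) ≤ ∑ j, ((cnt j : ℝ) + 800 * n * (1 - ‖b j‖)) := Finset.sum_le_sum fun j _ => hj j
      _ = ∑ j, (cnt j : ℝ) + 800 * n * ∑ j, (1 - ‖b j‖) := by
        rw [Finset.sum_add_distrib, Finset.mul_sum]
      _ ≤ _ := by linarith
  have hδ : 0 ≤ ∑ j, (1 - ‖b j‖) := Finset.sum_nonneg fun j _ => by linarith [h.hb j]
  have e1 : ∑ j, (n * r (b j) + H (((1 - r (b j) : ℝ) : ℂ) * b j)) = ∑ j, u (b j) := rfl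
  rw [e1]
  refine hfin.trans ?_
  rw [hNn]
  nlinarith [mul_nonneg hn0.le hδ, mul_le_mul_of_nonneg_left hL1 hn0.le]

/-- the potential at a point closer to the boundary -/
lemma closer2 {b : ι → ℂ} {n : ℝ} {H : ℂ → ℝ} (h : Dom b n H) (hn : 1 ≤ n) {κ ρ : ℝ} (hκ0 : 0 < κ)
    (hκ1 : κ ≤ 1) (hρ0 : 1 / (2 * n) ≤ ρ) (hρ : ρ ≤ 1 / 2) {e : ℂ} (he : ‖e‖ ≤ 1) :
    HH 0 b (((1 - κ * ρ : ℝ) : ℂ) * e) ≤ H (((1 - ρ : ℝ) : ℂ) * e) +
      (n * ρ + 10 * H (((1 - ρ : ℝ) : ℂ) * e)) * (7 + 4 * Real.log (1 / κ)) := by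
  have hlogκ : 0 ≤ Real.log (1 / κ) := Real.log_nonneg (by rw [le_div_iff₀ hκ0]; linarith)
  have hρpos : 0 < ρ := lt_of_lt_of_le (by positivity) hρ0
  set x : ℂ := ((1 - ρ : ℝ) : ℂ) * e with hx
  have hxn : ‖x‖ ≤ 1 - ρ := norm_real_mul_le (by linarith) he
  have hxr : ‖x‖ ≤ 1 - 1 / (2 * n) := by linarith
  have h1 : ∀ j ∈ (Finset.univ : Finset ι), Real.log ‖1 - x * starRingEnd ℂ (b j)‖ ≤
      Real.log ‖1 - ((1 - κ * ρ : ℝ) : ℂ) * e * starRingEnd ℂ (b j)‖ +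
        ρ * ((1 - ‖x * starRingEnd ℂ (b j)‖ ^ 2) / ‖1 - x * starRingEnd ℂ (b j)‖ ^ 2) *
          (7 + 4 * Real.log (1 / κ)) := by
    intro j _
    rw [hx, mul_assoc, mul_assoc]
    apply log_ratio_le hκ0 hκ1 hρpos hρ rfl rfl
    rw [norm_mul, RCLike.norm_conj]
    exact mul_le_one₀ he (norm_nonneg _) (h.hb j)
  have h2 := Finset.sum_le_sum h1
  rw [Finset.sum_add_distrib, ← Finset.sum_mul, ← Finset.mul_sum] at h2
  have h3 := h.sumP x hxr
  have hH := h.one x hxr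
  have h4 : ρ * (∑ j, (1 - ‖x * starRingEnd ℂ (b j)‖ ^ 2) / ‖1 - x * starRingEnd ℂ (b j)‖ ^ 2) ≤
      n * ρ + 10 * H x := by
    calc ρ * (∑ j, (1 - ‖x * starRingEnd ℂ (b j)‖ ^ 2) / ‖1 - x * starRingEnd ℂ (b j)‖ ^ 2)
        ≤ ρ * (n + 10 * H x / (1 - ‖x‖)) := mul_le_mul_of_nonneg_left h3 hρpos.le
      _ ≤ ρ * (n + 10 * H x / ρ) := by
        apply mul_le_mul_of_nonneg_left _ hρpos.le
        have : 10 * H x / (1 - ‖x‖) ≤ 10 * H x / ρ := by
          apply div_le_div_of_nonneg_left (by linarith) hρpos; linarith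
        linarith
      _ = _ := by field_simp
  have h5 := mul_le_mul_of_nonneg_right h4 (by linarith : 0 ≤ 7 + 4 * Real.log (1 / κ))
  have h7 := h.U_le x hxr
  have e1 : HH 0 b (((1 - κ * ρ : ℝ) : ℂ) * e) =
      0 - ∑ j, Real.log ‖1 - ((1 - κ * ρ : ℝ) : ℂ) * e * starRingEnd ℂ (b j)‖ := rfl
  have e2 : HH 0 b x = 0 - ∑ j, Real.log ‖1 - x * starRingEnd ℂ (b j)‖ := rfl
  rw [e1]
  rw [e2] at h7
  linarith

/-- contraction factors `1 - ε j` with small total contraction and bounded energy -/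
theorem contract2 {b : ι → ℂ} {H : ℂ → ℝ} (h : Dom b (Fintype.card ι) H) (hn : 0 < Fintype.card ι)
    (hL : H 0 ≤ 4 * Fintype.card ι) {κ : ℝ} (hκ0 : 0 < κ) (hκ1 : κ ≤ 1) :
    ∃ ε : ι → ℝ, (∀ j, 0 < ε j ∧ ε j ≤ 1 / 2) ∧
      ∑ j, ε j ≤ κ * (1300000000000 * (1 + H 0 + ∑ j, (1 - ‖b j‖))) ∧
      ∑ i, ∑ j, -Real.log ‖1 - (((1 - ε i) * (1 - ε j) : ℝ) : ℂ) * (b i * starRingEnd ℂ (b j))‖ ≤
        Fintype.card ι * (93600000000000 * (1 + H 0 + ∑ j, (1 - ‖b j‖)) * (1 + Real.log (1 / κ))) := by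
  obtain ⟨ρ, hρ, hsum⟩ := radii2 h hn hL
  set n : ℝ := (Fintype.card ι : ℝ) with hndef
  have hn1 : 1 ≤ n := by rw [hndef]; exact_mod_cast hn
  have hn0 : 0 < n := by linarith
  have h2n : 1 / (2 * n) ≤ 1 / 2 := by
    apply one_div_le_one_div_of_le (by norm_num); linarith
  have hL1 : 1 ≤ H 0 := h.one 0 (by rw [norm_zero]; linarith)
  set W := 1 + H 0 + ∑ j, (1 - ‖b j‖) with hW
  have hlogκ : 0 ≤ Real.log (1 / κ) := Real.log_nonneg (by rw [le_div_iff₀ hκ0]; linarith)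
  have hH0 : ∀ j, 1 ≤ H (((1 - ρ j : ℝ) : ℂ) * b j) := by
    intro j
    apply h.one
    refine (norm_real_mul_le (by linarith [(hρ j).2.2]) (h.hb j)).trans ?_
    linarith [(hρ j).1]
  have hε : ∀ j, 0 < κ * ρ j ∧ κ * ρ j ≤ 1 / 2 := by
    intro j
    refine ⟨mul_pos hκ0 (hρ j).2.1, ?_⟩
    nlinarith [(hρ j).2.1, (hρ j).2.2]
  have hη : ∑ j, κ * ρ j ≤ κ * (1300000000000 * W) := by
    rw [← Finset.mul_sum]
    apply mul_le_mul_of_nonneg_left _ hκ0.le
    have h1 : n * ∑ j, ρ j ≤ n * (1300000000000 * W) := by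
      rw [Finset.mul_sum]
      calc ∑ j, n * ρ j ≤ ∑ j, (n * ρ j + H (((1 - ρ j : ℝ) : ℂ) * b j)) :=
            Finset.sum_le_sum fun j _ => by linarith [hH0 j]
        _ ≤ 1300000000000 * n * W := hsum
        _ = n * (1300000000000 * W) := by ring
    exact le_of_mul_le_mul_left h1 hn0
  refine ⟨fun j => κ * ρ j, hε, hη, ?_⟩
  -- energy bound
  have h1 : ∀ i ∈ (Finset.univ : Finset ι),
      ∑ j, -Real.log ‖1 - (((1 - κ * ρ i) * (1 - κ * ρ j) : ℝ) : ℂ) * (b i * starRingEnd ℂ (b j))‖ ≤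
      71 * (1 + Real.log (1 / κ)) * (n * ρ i + H (((1 - ρ i : ℝ) : ℂ) * b i)) +
        ∑ j, κ * ρ j := by
    intro i _
    have h2 : ∀ j ∈ (Finset.univ : Finset ι),
        -Real.log ‖1 - (((1 - κ * ρ i) * (1 - κ * ρ j) : ℝ) : ℂ) * (b i * starRingEnd ℂ (b j))‖ ≤
        -Real.log ‖1 - ((1 - κ * ρ i : ℝ) : ℂ) * b i * starRingEnd ℂ (b j)‖ + κ * ρ j := by
      intro j _
      have hi := hε i
      have hj := hε j
      have h3 := log_mono (s := (1 - κ * ρ i) * (1 - κ * ρ j)) (s' := 1 - κ * ρ i)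
        (mul_nonneg (by linarith) (by linarith)) (by nlinarith) (by linarith)
        (w := b i * starRingEnd ℂ (b j)) (by
          rw [norm_mul, RCLike.norm_conj]
          exact mul_le_one₀ (h.hb i) (norm_nonneg _) (h.hb j))
      rw [mul_assoc]
      nlinarith
    have h3 := Finset.sum_le_sum h2
    rw [Finset.sum_add_distrib] at h3
    have h4 : ∑ j, -Real.log ‖1 - ((1 - κ * ρ i : ℝ) : ℂ) * b i * starRingEnd ℂ (b j)‖ =
        HH 0 b (((1 - κ * ρ i : ℝ) : ℂ) * b i) := by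
      unfold HH
      rw [Finset.sum_neg_distrib]; ring
    rw [h4] at h3
    have h5 := closer2 h hn1 hκ0 hκ1 (hρ i).1 (hρ i).2.2 (h.hb i)
    set X := H (((1 - ρ i : ℝ) : ℂ) * b i) with hX
    have hX0 : 1 ≤ X := hH0 i
    have hnρ : 0 < n * ρ i := mul_pos hn0 (hρ i).2.1
    have h6 : X + (n * ρ i + 10 * X) * (7 + 4 * Real.log (1 / κ)) ≤
        71 * (1 + Real.log (1 / κ)) * (n * ρ i + X) := by
      nlinarith [mul_nonneg (show (0:ℝ) ≤ X by linarith) hlogκ, mul_nonneg hnρ.le hlogκ]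
    linarith
  have h2 := Finset.sum_le_sum h1
  rw [Finset.sum_add_distrib, Finset.sum_const, Finset.card_univ, nsmul_eq_mul, ← Finset.mul_sum,
    ← hndef] at h2
  have hW0 : 0 ≤ W := by
    have hδ : 0 ≤ ∑ j, (1 - ‖b j‖) := Finset.sum_nonneg fun j _ => by linarith [h.hb j]
    linarith
  have h3 : 71 * (1 + Real.log (1 / κ)) *
      ∑ i, (n * ρ i + H (((1 - ρ i : ℝ) : ℂ) * b i)) ≤
      71 * (1 + Real.log (1 / κ)) * (1300000000000 * n * W) :=
    mul_le_mul_of_nonneg_left hsum (by positivity)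
  have h4 : n * ∑ j, κ * ρ j ≤ n * (1300000000000 * W) := by
    apply mul_le_mul_of_nonneg_left _ hn0.le
    refine hη.trans ?_
    have : 0 ≤ 1300000000000 * W := by positivity
    nlinarith
  refine h2.trans ?_
  nlinarith [mul_nonneg (mul_nonneg hn0.le hW0) hlogκ]

end Pool.Agent.Y947.DP
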