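import Mathlib
import Pool.Agent.Y947.DP.Rad
import Pool.Agent.Y947.DP.Opt

/-!
# Lower bounds for Mahler measures in terms of the mean of `log⁺ |f|`
-/

set_option autoImplicit false

open Finset Polynomial Module IntermediateField Metric Pool.Agent.H388SL Pool.Agent.Y947.DL
  Pool.Agent.Y947.DM

namespace Pool.Agent.Y947.DP

/-- mean of `log⁺ |f|` over the unit circle -/
noncomputable def mp (f : ℤ[X]) : ℝ := Real.circleAverage (fun z : ℂ => Real.posLog ‖aeval z f‖) 0 1

lemma mp_nonneg (f : ℤ[X]) : 0 ≤ mp f :=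
  Real.circleAverage_nonneg_of_nonneg fun _ _ => Real.posLog_nonneg

lemma mp_neg (f : ℤ[X]) : mp (-f) = mp f := by
  unfold mp
  simp only [map_neg, norm_neg]

/-- averages of `φ (z ^ q)` -/
lemma circleAverage_pow {φ : ℂ → ℝ} (hφ : Continuous φ) {q : ℕ} (hq : 0 < q) :
    Real.circleAverage (fun z => φ (z ^ q)) 0 1 = Real.circleAverage φ 0 1 := by
  unfold Real.circleAverage
  congr 1
  have hq0 : (q : ℝ) ≠ 0 := by exact_mod_cast hq.ne'
  have h1 : ∀ θ : ℝ, φ (circleMap 0 1 θ ^ q) = (fun u => φ (circleMap 0 1 u)) (q * θ) := by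
    intro θ
    dsimp only
    congr 1
    simp only [circleMap_zero, Complex.ofReal_one, one_mul, Complex.ofReal_mul, Complex.ofReal_natCast]
    rw [← Complex.exp_nat_mul]
    congr 1
    ring
  have h0 : ∫ θ in (0:ℝ)..2 * Real.pi, φ (circleMap 0 1 θ ^ q) =
      ∫ θ in (0:ℝ)..2 * Real.pi, (fun u => φ (circleMap 0 1 u)) (q * θ) :=
    intervalIntegral.integral_congr fun θ _ => h1 θ
  rw [h0, intervalIntegral.integral_comp_mul_left (fun u => φ (circleMap 0 1 u)) hq0, mul_zero]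
  have hper : Function.Periodic (fun u : ℝ => φ (circleMap 0 1 u)) (2 * Real.pi) := fun x => by
    dsimp only
    rw [periodic_circleMap 0 1 x]
  have hcont : Continuous (fun u : ℝ => φ (circleMap 0 1 u)) := hφ.comp (continuous_circleMap 0 1)
  have h2 := hper.intervalIntegral_add_zsmul_eq (q : ℤ) 0 (fun a b => hcont.intervalIntegrable a b)
  simp only [zero_add, natCast_zsmul, nsmul_eq_mul] at h2
  rw [h2, smul_eq_mul]
  field_simp

lemma posLog_cont (f : ℤ[X]) : Continuous (fun z : ℂ => Real.posLog ‖aeval z f‖) := by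
  apply Real.continuous_posLog.comp
  apply Continuous.norm
  simp only [Polynomial.aeval_def]
  exact Polynomial.continuous_eval₂ f _

lemma mp_expand {q : ℕ} (hq : 0 < q) (g : ℤ[X]) : mp (expand ℤ q g) = mp g := by
  unfold mp
  rw [← circleAverage_pow (posLog_cont g) hq]
  simp only [expand_aeval]

section

variable {ι : Type*} [Fintype ι] {b : ι → ℂ}

/-- `log⁺` of the product, defined everywhere -/
noncomputable def GP (b : ι → ℂ) (x : ℂ) : ℝ := Real.posLog ‖∏ j, (1 - x * starRingEnd ℂ (b j))‖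

lemma GP_cont (b : ι → ℂ) : Continuous (GP b) := by
  unfold GP
  apply Real.continuous_posLog.comp
  fun_prop

lemma gg_eq (hb : ∀ j, ‖b j‖ ≤ 1) {x : ℂ} (hx : ‖x‖ < 1) : gg b x = GP b x := by
  unfold gg GP HH
  rw [Real.posLog_apply, norm_prod, Real.log_prod]
  · congr 1
    ring
  · intro j _
    exact norm_ne_zero_iff.mpr (one_sub_ne (norm_mul_conj_lt hx (hb j)))

lemma avg_mono_lt (hb : ∀ j, ‖b j‖ ≤ 1) {R r : ℝ} (hR0 : 0 < R) (hRr : R < r) (hr1 : r < 1) :
    Real.circleAverage (gg b) 0 R ≤ Real.circleAverage (gg b) 0 r := by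
  have hr0 : 0 < r := hR0.trans hRr
  have hsub : ∀ ζ ∈ sphere (0:ℂ) |R|, ζ ∈ ball (0:ℂ) r := by
    intro ζ hζ
    rw [mem_sphere_zero_iff_norm, abs_of_pos hR0] at hζ
    rw [mem_ball_zero_iff, hζ]; exact hRr
  have hc := gg_CS hb hr0 hr1
  have hd : DiffContOnCl ℂ (CP r (gg b)) (ball 0 |R|) := by
    apply DifferentiableOn.diffContOnCl
    rw [abs_of_pos hR0, closure_ball _ hR0.ne']
    exact (CP_diff hc).mono (closedBall_subset_ball hRr)
  have hdc : ContinuousOn (CP r (gg b)) (sphere 0 |R|) := by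
    apply hd.continuousOn.mono
    rw [abs_of_pos hR0, closure_ball _ hR0.ne']
    exact sphere_subset_closedBall
  have h1 := hd.circleAverage
  have h2 := Complex.reCLM.circleAverage_comp_comm hdc.circleIntegrable'
  rw [h1, Complex.reCLM_apply, CP_re hc (mem_ball_self hr0), PI_zero hr0] at h2
  rw [← h2]
  apply Real.circleAverage_mono (gg_CS hb hR0 (hRr.trans hr1)).ci
  · exact ContinuousOn.circleIntegrable' (Complex.continuous_re.comp_continuousOn hdc)
  · intro ζ hζ
    have hζ' := hsub ζ hζ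
    have h3 : (⇑Complex.reCLM ∘ CP r (gg b)) ζ = PI r (gg b) ζ := CP_re hc hζ'
    rw [h3]
    unfold gg
    apply max_le
    · exact PI_nonneg hc hζ' (fun x _ => le_max_left _ _)
    · rw [← PI_HH hb hr0 hr1 hζ']
      exact PI_mono (HH_CS hb hr0 hr1).neg hc hζ' (fun x _ => le_max_right _ _)

lemma avg_le_one (hb : ∀ j, ‖b j‖ ≤ 1) {R : ℝ} (hR0 : 0 < R) (hR1 : R < 1) :
    Real.circleAverage (gg b) 0 R ≤ Real.circleAverage (GP b) 0 1 := by
  have hcont : Continuous (Real.circleAverage (GP b) 0) := Real.Continuous.circleAverage (GP_cont b)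
  have h1 : Filter.Tendsto (Real.circleAverage (GP b) 0) (nhdsWithin 1 (Set.Iio 1))
      (nhds (Real.circleAverage (GP b) 0 1)) := hcont.continuousAt.tendsto.mono_left nhdsWithin_le_nhds
  apply ge_of_tendsto h1
  have h2 : Set.Ioo R 1 ∈ nhdsWithin (1:ℝ) (Set.Iio 1) := Ioo_mem_nhdsLT hR1
  filter_upwards [h2] with r hr
  refine (avg_mono_lt hb hR0 hr.1 hr.2).trans (le_of_eq ?_)
  apply Real.circleAverage_congr_sphere
  intro x hx
  apply gg_eq hb
  rw [mem_sphere_zero_iff_norm, abs_of_pos (hR0.trans hr.1)] at hx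
  rw [hx]; exact hr.2

lemma avg_le_card (hb : ∀ j, ‖b j‖ ≤ 1) {R : ℝ} (hR0 : 0 < R) (hR1 : R < 1) :
    Real.circleAverage (gg b) 0 R ≤ Fintype.card ι * Real.log 2 := by
  apply Real.circleAverage_mono_on_of_le_circle (gg_CS hb hR0 hR1).ci
  intro x hx
  have hx1 : ‖x‖ < 1 := by
    rw [mem_sphere_zero_iff_norm, abs_of_pos hR0] at hx
    rw [hx]; exact hR1
  unfold gg HH
  apply max_le
  · exact mul_nonneg (Nat.cast_nonneg _) (Real.log_nonneg (by norm_num))
  · have h3 : ∀ j ∈ (Finset.univ : Finset ι),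
        Real.log ‖1 - x * starRingEnd ℂ (b j)‖ ≤ Real.log 2 := by
      intro j _
      have h4 := norm_mul_conj_lt hx1 (hb j)
      apply Real.log_le_log (norm_pos_iff.mpr (one_sub_ne h4))
      refine (norm_sub_le _ _).trans ?_
      rw [norm_one]
      linarith
    have h4 := Finset.sum_le_sum h3
    rw [Finset.sum_const, Finset.card_univ, nsmul_eq_mul] at h4
    linarith

end

lemma avg_le_mp {p : ℤ[X]} {K : Type} [Field K] [NumberField K] {α : K} (h : Rep p K α) {R : ℝ}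
    (hR0 : 0 < R) (hR1 : R < 1) :
    Real.circleAverage (gg (fun σ : K →ₐ[ℚ] ℂ => H388SL.refl (σ α))) 0 R ≤ mp p := by
  have hb : ∀ σ : K →ₐ[ℚ] ℂ, ‖H388SL.refl (σ α)‖ ≤ 1 := fun σ => norm_refl_le _
  refine (avg_le_one hb hR0 hR1).trans ?_
  unfold mp
  apply Real.circleAverage_mono
  · exact ContinuousOn.circleIntegrable' (GP_cont _).continuousOn
  · exact ContinuousOn.circleIntegrable' (posLog_cont p).continuousOn
  · intro z hz
    rw [mem_sphere_zero_iff_norm, abs_one] at hz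
    apply Real.posLog_le_posLog (norm_nonneg _)
    rw [h.aeval_eq, norm_prod, norm_prod]
    apply Finset.prod_le_prod
    · intro σ _; exact norm_nonneg _
    · intro σ _
      rw [← unit_factor hz (σ α)]
      exact le_mul_of_one_le_right (norm_nonneg _) (le_max_left _ _)

/-- the bound for a represented polynomial -/
lemma rep_main3 {c : ℝ} (hc : ∀ (K : Type) [Field K] [NumberField K] (α : K), IsIntegral ℤ α →
    α ≠ 0 → (∀ n : ℕ, 0 < n → α ^ n ≠ 1) → CInj α → (∏ σ : K →ₐ[ℚ] ℂ, ‖σ α‖ = 1) →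
    (∀ p : ℕ, p.Prime → p ≠ 2 → Good α p) →
    ∀ B : ℝ, 1 ≤ B →
    (lam α ≤ 1 → ∀ κ : ℝ, 0 < κ → κ ≤ 1 → ∃ ε : (K →ₐ[ℚ] ℂ) → ℝ, (∀ σ, 0 < ε σ ∧ ε σ ≤ 1 / 2) ∧
      ∑ σ, ε σ ≤ κ * (63000000 * B) ∧
      EE α ε 1 1 ≤ finrank ℚ K * (2 * 10 ^ 9 * B * (1 + Real.log (1 / κ)))) →
    c / B ^ 3 ≤ lam α)
    {p : ℤ[X]} {K : Type} [Field K] [NumberField K] {α : K} (h : Rep p K α)
    (hc0 : |p.coeff 0| = 1) (hM : 1 < MM p)
    (hgood : ∀ q : ℕ, q.Prime → q ≠ 2 → Good α q) :
    c / (200000 * (1 + mp p)) ^ 3 ≤ Real.log (MM p) := by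
  have hmp := mp_nonneg p
  rw [h.log_MM]
  apply hc K α h.isInt (h.ne_zero hc0) (h.not_root hM) h.inj (h.prod_norm hc0) hgood
    (200000 * (1 + mp p)) (by linarith)
  intro hlam κ hκ0 hκ1
  set b : (K →ₐ[ℚ] ℂ) → ℂ := fun σ => H388SL.refl (σ α) with hbdef
  have hb : ∀ σ : K →ₐ[ℚ] ℂ, ‖b σ‖ ≤ 1 := fun σ => norm_refl_le _
  have hcard : Fintype.card (K →ₐ[ℚ] ℂ) = finrank ℚ K := AlgHom.card ℚ K ℂ
  have hn : 0 < finrank ℚ K := finrank_pos
  have hn1 : (1:ℝ) ≤ finrank ℚ K := by exact_mod_cast hn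
  obtain ⟨H, hdom, hH0⟩ := exists_dom hb (by rw [hcard]; exact hn)
  have hR1 : 1 - 1 / (16 * (Fintype.card (K →ₐ[ℚ] ℂ) : ℝ)) < 1 := by
    rw [hcard]
    have : 0 < 1 / (16 * (finrank ℚ K : ℝ)) := by positivity
    linarith
  have hR0 : 0 < 1 - 1 / (16 * (Fintype.card (K →ₐ[ℚ] ℂ) : ℝ)) := by
    rw [hcard]
    have : 1 / (16 * (finrank ℚ K : ℝ)) ≤ 1 / 16 := by
      apply one_div_le_one_div_of_le (by norm_num); linarith
    linarith
  have ha1 := avg_le_mp h hR0 hR1
  have ha2 := avg_le_card hb hR0 hR1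
  rw [← hbdef] at ha1
  have hδ := delta_le (h.ne_zero hc0) (h.prod_norm hc0)
  have hH4 : H 0 ≤ 4 * Fintype.card (K →ₐ[ℚ] ℂ) := by
    have h2 := Real.log_two_lt_d9
    have h3 : (1:ℝ) ≤ Fintype.card (K →ₐ[ℚ] ℂ) := by rw [hcard]; exact hn1
    nlinarith
  obtain ⟨ε, hε, hη, hS⟩ := contract2 hdom (by rw [hcard]; exact hn) hH4 hκ0 hκ1
  set W := 1 + H 0 + ∑ σ, (1 - ‖b σ‖) with hW
  have hWle : W ≤ 4 * (1 + mp p) := by
    have h3 : ∑ σ, (1 - ‖b σ‖) ≤ 2 * lam α := hδ
    linarith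
  have hlogκ : 0 ≤ Real.log (1 / κ) := Real.log_nonneg (by rw [le_div_iff₀ hκ0]; linarith)
  refine ⟨ε, hε, ?_, ?_⟩
  · refine hη.trans ?_
    apply mul_le_mul_of_nonneg_left _ hκ0.le
    nlinarith
  · have e1 : EE α ε 1 1 = ∑ i : K →ₐ[ℚ] ℂ, ∑ j : K →ₐ[ℚ] ℂ,
        -Real.log ‖1 - (((1 - ε i) * (1 - ε j) : ℝ) : ℂ) * (b i * starRingEnd ℂ (b j))‖ := by
      unfold EE
      refine Finset.sum_congr rfl fun σ _ => Finset.sum_congr rfl fun τ _ => ?_
      rw [ww_mul α ε σ τ one_ne_zero one_ne_zero, pow_one, pow_one, pow_one]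
    rw [e1]
    refine hS.trans ?_
    rw [hcard]
    apply mul_le_mul_of_nonneg_left _ (Nat.cast_nonneg _)
    apply mul_le_mul_of_nonneg_right _ (by linarith)
    nlinarith

/-- monic units -/
theorem monic_case3 : ∃ c : ℝ, 0 < c ∧ ∀ f : ℤ[X], Irreducible f → f.Monic → |f.coeff 0| = 1 →
    1 < MM f → c / (1 + mp f) ^ 3 ≤ Real.log (MM f) := by
  obtain ⟨c, hc0, hcm⟩ := field_main3
  refine ⟨c / 200000 ^ 3, by positivity, ?_⟩
  have ind : ∀ n : ℕ, ∀ f : ℤ[X], f.natDegree = n → Irreducible f → f.Monic → |f.coeff 0| = 1 →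
      1 < MM f → c / (200000 * (1 + mp f)) ^ 3 ≤ Real.log (MM f) := by
    intro n
    induction n using Nat.strong_induction_on with
    | _ n ih =>
      intro f hfn hf hm hf0 hM
      by_cases hexp : ∃ q : ℕ, q.Prime ∧ ∃ g : ℤ[X], f = expand ℤ q g
      · obtain ⟨q, hq, g, hg⟩ := hexp
        have hgirr : Irreducible g := of_irreducible_expand hq.ne_zero (by rw [← hg]; exact hf)
        have hgm : g.Monic := by
          have h1 := hm
          rw [hg, Monic, leadingCoeff_expand hq.pos] at h1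
          exact h1
        have hMM : MM f = MM g := by rw [hg, MM_expand hq.pos]
        have hmp : mp f = mp g := by rw [hg, mp_expand hq.pos]
        have hg0 : |g.coeff 0| = 1 := by
          rw [hg, coeff_expand hq.pos, if_pos (dvd_zero q), Nat.zero_div] at hf0
          exact hf0
        have hg1 : g.natDegree ≠ 0 := natDegree_ne (by rw [← hMM]; exact hM) hgm
        have hgd : g.natDegree < n := by
          rw [← hfn, hg, natDegree_expand]
          have := hq.two_le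
          have h2 : 0 < g.natDegree := Nat.pos_of_ne_zero hg1
          nlinarith
        have h1 := ih g.natDegree hgd g rfl hgirr hgm hg0 (by rw [← hMM]; exact hM)
        rw [hMM, hmp]
        exact h1
      · push Not at hexp
        obtain ⟨z, hz⟩ := exists_zero hM hm
        obtain ⟨hNF, hrep⟩ := exists_rep f hf hm z hz
        apply rep_main3 hcm hrep hf0 hM
        intro q hq hq2
        exact good_of_witness (hrep.ne_zero hf0) hrep.inj hq hq2 (hrep.witness hq (hexp q hq))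
  intro f hf hm hf0 hM
  have h1 := ind _ f rfl hf hm hf0 hM
  rw [mul_pow, ← div_div] at h1
  exact h1

/-- the general irreducible case -/
theorem irr_case3 : ∃ c : ℝ, 0 < c ∧ ∀ f : ℤ[X], Irreducible f →
    1 < MM f → c / (1 + mp f) ^ 3 ≤ Real.log (MM f) := by
  obtain ⟨c1, hc1, hc⟩ := monic_case3
  have hlog2 : 0 < Real.log 2 := Real.log_pos (by norm_num)
  set c := min c1 (Real.log 2) with hcdef
  have hc0 : 0 < c := lt_min (by positivity) hlog2
  refine ⟨c, hc0, ?_⟩
  intro f hf hM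
  have hmp := mp_nonneg f
  have hcmp : c / (1 + mp f) ^ 3 ≤ c1 / (1 + mp f) ^ 3 :=
    div_le_div_of_nonneg_right (min_le_left _ _) (by positivity)
  by_cases hbig : 2 ≤ MM f
  · have h1 : c ≤ Real.log 2 := min_le_right _ _
    have h2 : Real.log 2 ≤ Real.log (MM f) := Real.log_le_log (by norm_num) hbig
    have h3 : c / (1 + mp f) ^ 3 ≤ c := by
      apply div_le_self hc0.le
      exact one_le_pow₀ (by linarith)
    linarith
  push Not at hbig
  have hf0 : f ≠ 0 := hf.ne_zero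
  have hlc : |f.leadingCoeff| = 1 := by
    have h1 : 1 ≤ |f.leadingCoeff| := Int.one_le_abs (leadingCoeff_ne_zero.mpr hf0)
    have h3 := leadingCoeff_le_MM f
    by_contra hne
    have h2 : 2 ≤ |f.leadingCoeff| := by omega
    have h4 : (2:ℝ) ≤ |(f.leadingCoeff : ℝ)| := by exact_mod_cast h2
    linarith
  have hcc : |f.coeff 0| = 1 := by
    have h0 : f.coeff 0 ≠ 0 := by
      intro h
      have hdvd : (X : ℤ[X]) ∣ f := X_dvd_iff.mpr h
      obtain ⟨g, hg⟩ := hdvd
      rcases hf.isUnit_or_isUnit hg with h1 | h1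
      · exact Polynomial.not_isUnit_X h1
      · have h2 : MM f = 1 := by
          rw [hg, MM_mul]
          obtain ⟨r, hr, hrg⟩ := Polynomial.isUnit_iff.mp h1
          have h3 : MM (X : ℤ[X]) = 1 := by
            rw [MM, Polynomial.map_X]
            have := mahlerMeasure_X_sub_C 0
            simpa using this
          have h4 : MM g = 1 := by
            rw [← hrg, MM, Polynomial.map_C, mahlerMeasure_const, eq_intCast, Complex.norm_intCast]
            rcases Int.isUnit_iff.mp hr with h5 | h5 <;> simp [h5]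
          rw [h3, h4, one_mul]
        linarith
    have h1 : 1 ≤ |f.coeff 0| := Int.one_le_abs h0
    have h3 := coeff_zero_le_MM f
    by_contra hne
    have h2 : 2 ≤ |f.coeff 0| := by omega
    have h4 : (2:ℝ) ≤ |(f.coeff 0 : ℝ)| := by exact_mod_cast h2
    linarith
  rcases (abs_eq (by norm_num : (0:ℤ) ≤ 1)).mp hlc with h | h
  · exact hcmp.trans (hc f hf h hcc hM)
  · have h1 := hc (-f) (by simpa using (irreducible_units_mul (-1 : ℤ[X]ˣ)).mpr hf) (by
        rw [Monic, leadingCoeff_neg, h]; norm_num) (by rw [coeff_neg, abs_neg]; exact hcc)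
      (by rw [MM_neg]; exact hM)
    rw [MM_neg, mp_neg] at h1
    exact hcmp.trans h1

end Pool.Agent.Y947.DP
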